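import Pool.Agent.N210.GO.Tb
import Pool.Agent.TH553.ST.Joint

set_option autoImplicit false
set_option linter.unusedSectionVars false

/-!
# The calculus of averages
-/

namespace Pool.Agent.N210.GO

open Complex Filter Topology ComplexConjugate NumberField IsDedekindDomain MeasureTheory
  Pool.Agent.W540.BE Pool.Agent.TH553.RS Pool.Agent.TH553.ST

section

variable {K : Type} [Field K] [NumberField K]

/-- the average is `c` -/
def Av (F : HeightOneSpectrum (𝓞 K) → ℂ) (c : ℂ) : Prop := Tendsto (mn F) atTop (𝓝 c)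

theorem Av.unique {F : HeightOneSpectrum (𝓞 K) → ℂ} {c c' : ℂ} (h : Av F c) (h' : Av F c') :
    c = c' := tendsto_nhds_unique h h'

theorem Av.add {F F' : HeightOneSpectrum (𝓞 K) → ℂ} {c c' : ℂ} (h : Av F c) (h' : Av F' c') :
    Av (fun v => F v + F' v) (c + c') := by
  refine (Tendsto.add h h').congr fun N => ?_
  unfold mn
  rw [← smul_add, ← Finset.sum_add_distrib]

theorem Av.const_mul {F : HeightOneSpectrum (𝓞 K) → ℂ} {c : ℂ} (h : Av F c) (a : ℂ) :
    Av (fun v => a * F v) (a * c) :=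
  (Tendsto.const_mul a h).congr fun N => (mn_mul a F N).symm

theorem Av.sub {F F' : HeightOneSpectrum (𝓞 K) → ℂ} {c c' : ℂ} (h : Av F c) (h' : Av F' c') :
    Av (fun v => F v - F' v) (c - c') := by
  refine (Tendsto.sub h h').congr fun N => ?_
  unfold mn
  rw [← smul_sub, ← Finset.sum_sub_distrib]

theorem Av.conj {F : HeightOneSpectrum (𝓞 K) → ℂ} {c : ℂ} (h : Av F c) :
    Av (fun v => conj (F v)) (conj c) := by
  refine ((Complex.continuous_conj.tendsto c).comp h).congr fun N => ?_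
  simp only [Function.comp]
  unfold mn
  rw [Complex.real_smul, Complex.real_smul, map_mul, Complex.conj_ofReal, map_sum]

theorem Av.sum {J : Type} (s : Finset J) {F : J → HeightOneSpectrum (𝓞 K) → ℂ} {c : J → ℂ}
    (h : ∀ j ∈ s, Av (F j) (c j)) : Av (fun v => ∑ j ∈ s, F j v) (∑ j ∈ s, c j) :=
  (tendsto_finsetSum _ h).congr fun N => (mn_sum s F N).symm

theorem mn_one : ∀ᶠ N : ℕ in atTop, mn (fun _ : HeightOneSpectrum (𝓞 K) => (1 : ℂ)) N = 1 := by
  filter_upwards [card_ev (K := K)] with N hN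
  unfold mn
  rw [Finset.sum_const, Complex.real_smul, nsmul_eq_mul, mul_one]
  push_cast
  have hN' : ((upto K N).card : ℂ) ≠ 0 := by exact_mod_cast hN
  field_simp

theorem Av.one : Av (fun _ : HeightOneSpectrum (𝓞 K) => (1 : ℂ)) 1 :=
  tendsto_const_nhds.congr' (mn_one.mono fun _ h => h.symm)

/-- real averages -/
theorem mn_mono {F F' : HeightOneSpectrum (𝓞 K) → ℝ} (h : ∀ v, F v ≤ F' v) (N : ℕ) :
    mn F N ≤ mn F' N := by
  unfold mn
  rw [smul_eq_mul, smul_eq_mul]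
  exact mul_le_mul_of_nonneg_left (Finset.sum_le_sum fun v _ => h v) (by positivity)

theorem mn_nonneg {F : HeightOneSpectrum (𝓞 K) → ℝ} (h : ∀ v, 0 ≤ F v) (N : ℕ) : 0 ≤ mn F N := by
  unfold mn
  rw [smul_eq_mul]
  exact mul_nonneg (by positivity) (Finset.sum_nonneg fun v _ => h v)

theorem mn_constR {a : ℝ} (ha : 0 ≤ a) (N : ℕ) :
    mn (fun _ : HeightOneSpectrum (𝓞 K) => a) N ≤ a := by
  unfold mn
  rw [smul_eq_mul, Finset.sum_const, nsmul_eq_mul, ← mul_assoc]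
  by_cases h0 : ((upto K N).card : ℝ) = 0
  · rw [h0]
    simpa using ha
  · rw [inv_mul_cancel₀ h0, one_mul]

theorem mn_addR (F F' : HeightOneSpectrum (𝓞 K) → ℝ) (N : ℕ) :
    mn (fun v => F v + F' v) N = mn F N + mn F' N := by
  unfold mn
  rw [← smul_add, ← Finset.sum_add_distrib]

theorem mn_mulR (a : ℝ) (F : HeightOneSpectrum (𝓞 K) → ℝ) (N : ℕ) :
    mn (fun v => a * F v) N = a * mn F N := by
  unfold mn
  rw [← Finset.mul_sum, mul_smul_comm]

theorem norm_mn_le (F : HeightOneSpectrum (𝓞 K) → ℂ) (N : ℕ) :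
    ‖mn F N‖ ≤ mn (fun v => ‖F v‖) N := by
  unfold mn
  rw [norm_smul, smul_eq_mul, norm_inv, Real.norm_natCast]
  exact mul_le_mul_of_nonneg_left (norm_sum_le _ _) (by positivity)

/-- a bound with a small constant -/
theorem mn_small {F G : HeightOneSpectrum (𝓞 K) → ℝ} (hF : ∀ v, 0 ≤ F v)
    (hG : Tendsto (mn G) atTop (𝓝 0))
    (h : ∀ δ : ℝ, 0 < δ → ∃ C : ℝ, ∀ v, F v ≤ δ + C * G v) : Tendsto (mn F) atTop (𝓝 0) := by
  rw [Metric.tendsto_nhds]
  intro ε hε
  obtain ⟨C, hC⟩ := h (ε / 2) (by positivity)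
  have h1 := hG.const_mul C
  rw [mul_zero, Metric.tendsto_nhds] at h1
  filter_upwards [h1 (ε / 2) (by positivity)] with N hN
  rw [dist_eq_norm, sub_zero, Real.norm_eq_abs] at hN ⊢
  rw [abs_of_nonneg (mn_nonneg hF N)]
  have h2 := mn_mono hC N
  rw [mn_addR, mn_mulR] at h2
  have h3 := mn_constR (K := K) (a := ε / 2) (by positivity) N
  have h4 := le_abs_self (C * mn G N)
  linarith

/-- functions that are small in the mean -/
def Sm (D : HeightOneSpectrum (𝓞 K) → ℂ) : Prop := Tendsto (mn fun v => ‖D v‖) atTop (𝓝 0)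

theorem Sm.zero : Sm fun _ : HeightOneSpectrum (𝓞 K) => (0 : ℂ) := by
  unfold Sm
  simp only [norm_zero]
  refine tendsto_const_nhds.congr fun N => ?_
  unfold mn
  simp

theorem Sm.of_le {D D' : HeightOneSpectrum (𝓞 K) → ℂ} (h : Sm D) {C : ℝ}
    (h' : ∀ v, ‖D' v‖ ≤ C * ‖D v‖) : Sm D' :=
  mn_small (fun v => norm_nonneg _) h fun δ hδ => ⟨C, fun v => (h' v).trans (by linarith)⟩

theorem Sm.add {D D' : HeightOneSpectrum (𝓞 K) → ℂ} (h : Sm D) (h' : Sm D') :
    Sm fun v => D v + D' v := by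
  have h1 := Tendsto.add h h'
  rw [add_zero] at h1
  refine squeeze_zero (fun N => mn_nonneg (fun v => norm_nonneg _) N) (fun N => ?_) h1
  rw [← mn_addR]
  exact mn_mono (fun v => norm_add_le _ _) N

theorem Sm.mul {D w : HeightOneSpectrum (𝓞 K) → ℂ} (h : Sm D) (hw : Bc w) :
    Sm fun v => D v * w v := by
  obtain ⟨C, hC⟩ := hw
  refine h.of_le (C := C) fun v => ?_
  rw [norm_mul, mul_comm]
  exact mul_le_mul_of_nonneg_right (hC v) (norm_nonneg _)

theorem Sm.conj {D : HeightOneSpectrum (𝓞 K) → ℂ} (h : Sm D) : Sm fun v => conj (D v) := by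
  unfold Sm
  simp only [Complex.norm_conj]
  exact h

theorem Sm.neg {D : HeightOneSpectrum (𝓞 K) → ℂ} (h : Sm D) : Sm fun v => -D v := by
  unfold Sm
  simp only [norm_neg]
  exact h

theorem Sm.sub {D D' : HeightOneSpectrum (𝓞 K) → ℂ} (h : Sm D) (h' : Sm D') :
    Sm fun v => D v - D' v := by
  simp only [sub_eq_add_neg]
  exact h.add h'.neg

/-- products of approximations -/
theorem Sm.prod {a b a' b' : HeightOneSpectrum (𝓞 K) → ℂ} (h : Sm fun v => a v - b v)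
    (h' : Sm fun v => a' v - b' v) (ha : Bc a') (hb : Bc b) :
    Sm fun v => a v * a' v - b v * b' v := by
  have h1 := (h.mul ha).add (h'.mul hb)
  refine (h1.of_le (C := 1) fun v => ?_)
  rw [one_mul]
  apply le_of_eq
  congr 1
  ring

theorem Sm.av {F F' : HeightOneSpectrum (𝓞 K) → ℂ} {c : ℂ} (h : Sm fun v => F v - F' v)
    (h' : Av F c) : Av F' c := by
  have h1 : Av (fun v => F v - F' v) 0 :=
    squeeze_zero_norm (fun N => norm_mn_le _ N) h
  have h2 := h'.sub h1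
  rw [sub_zero] at h2
  simpa using h2

theorem Sm.av0 {D : HeightOneSpectrum (𝓞 K) → ℂ} (h : Sm D) : Av D 0 :=
  squeeze_zero_norm (fun N => norm_mn_le _ N) h

/-- the mean square -/
theorem Sm.sq {D : HeightOneSpectrum (𝓞 K) → ℂ} (h : Sm D) (hD : Bc D) :
    Tendsto (mn fun v => ‖D v‖ ^ 2) atTop (𝓝 0) := by
  obtain ⟨C, hC⟩ := hD
  refine mn_small (fun v => by positivity) h fun δ hδ => ⟨C, fun v => ?_⟩
  have : ‖D v‖ ^ 2 ≤ C * ‖D v‖ := by
    rw [pow_two]
    exact mul_le_mul_of_nonneg_right (hC v) (norm_nonneg _)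
  linarith

theorem Sm.of_sq {D : HeightOneSpectrum (𝓞 K) → ℂ}
    (h : Tendsto (mn fun v => ‖D v‖ ^ 2) atTop (𝓝 0)) : Sm D := by
  refine mn_small (fun v => norm_nonneg _) h fun δ hδ => ⟨1 / δ, fun v => ?_⟩
  have h1 : 0 ≤ (‖D v‖ - δ) ^ 2 := sq_nonneg _
  have h2 : δ * ‖D v‖ ≤ δ * (δ + 1 / δ * ‖D v‖ ^ 2) := by
    have h3 : δ * (δ + 1 / δ * ‖D v‖ ^ 2) = δ ^ 2 + ‖D v‖ ^ 2 := by
      field_simp
    rw [h3]
    nlinarith [sq_nonneg (‖D v‖), sq_nonneg δ]
  exact le_of_mul_le_mul_left h2 hδ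

/-- the natural density of a set of primes is zero -/
def Dz (s : Set (HeightOneSpectrum (𝓞 K))) : Prop :=
  Tendsto (mn (s.indicator fun _ => (1 : ℝ))) atTop (𝓝 0)

theorem Sm.dz {D : HeightOneSpectrum (𝓞 K) → ℂ} (h : Sm D) {δ : ℝ} (hδ : 0 < δ) :
    Dz {v | δ < ‖D v‖} := by
  refine mn_small (fun v => Set.indicator_nonneg (fun _ _ => zero_le_one) v) h fun η hη =>
    ⟨1 / δ, fun v => ?_⟩
  by_cases hv : v ∈ {v | δ < ‖D v‖}
  · rw [Set.indicator_of_mem hv]
    have h1 : δ < ‖D v‖ := hv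
    have h2 : 1 ≤ 1 / δ * ‖D v‖ := by
      rw [one_div, ← div_eq_inv_mul, one_le_div hδ]
      exact h1.le
    linarith
  · rw [Set.indicator_of_notMem hv]
    positivity

theorem Sm.of_dz {D : HeightOneSpectrum (𝓞 K) → ℂ} (hD : Bc D)
    (h : ∀ δ : ℝ, 0 < δ → Dz {v | δ < ‖D v‖}) : Sm D := by
  obtain ⟨C, hC⟩ := hD
  rw [Sm, Metric.tendsto_nhds]
  intro ε hε
  have h1 := (h (ε / 2) (by positivity)).const_mul |C|
  rw [mul_zero, Metric.tendsto_nhds] at h1
  filter_upwards [h1 (ε / 2) (by positivity)] with N hN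
  rw [dist_eq_norm, sub_zero, Real.norm_eq_abs] at hN ⊢
  rw [abs_of_nonneg (mn_nonneg (fun v => norm_nonneg _) N)]
  have hle : ∀ v, ‖D v‖ ≤ ε / 2 + |C| * ({v | ε / 2 < ‖D v‖}.indicator (fun _ => (1 : ℝ)) v) := by
    intro v
    by_cases hv : v ∈ {v | ε / 2 < ‖D v‖}
    · rw [Set.indicator_of_mem hv, mul_one]
      have := (hC v).trans (le_abs_self C)
      linarith
    · rw [Set.indicator_of_notMem hv, mul_zero, add_zero]
      have h3 : ¬ ε / 2 < ‖D v‖ := hv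
      linarith
  have h2 := mn_mono hle N
  rw [mn_addR, mn_mulR] at h2
  have h3 := mn_constR (K := K) (a := ε / 2) (by positivity) N
  have h4 := le_abs_self (|C| * mn ({v | ε / 2 < ‖D v‖}.indicator fun _ => (1 : ℝ)) N)
  linarith

/-- **The equality case.** -/
theorem Sm.of_av {a b : HeightOneSpectrum (𝓞 K) → ℂ} {c : ℝ} (hc : c ^ 2 = 1)
    (h1 : Av (fun v => ((‖a v‖ ^ 2 : ℝ) : ℂ)) 1) (h2 : Av (fun v => ((‖b v‖ ^ 2 : ℝ) : ℂ)) 1)
    (h3 : Av (fun v => a v * b v) c) : Sm fun v => a v - c * conj (b v) := by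
  refine Sm.of_sq ?_
  have h4 := ((h1.add (h3.const_mul (-2 * c))).add (h2.const_mul (c ^ 2)))
  have h5 := (Complex.continuous_re.tendsto _).comp h4
  have e0 : ((1 : ℂ) + -2 * c * c + c ^ 2 * 1).re = 0 := by
    have : (1 : ℂ) + -2 * c * c + c ^ 2 * 1 = ((1 - 2 * c ^ 2 + c ^ 2 : ℝ) : ℂ) := by
      push_cast
      ring
    rw [this, Complex.ofReal_re, hc]
    norm_num
  rw [e0] at h5
  refine h5.congr fun N => ?_
  simp only [Function.comp]
  rw [re_mn]
  congr 1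
  funext v
  have h6 := norm_df_sq c a b v
  unfold df at h6
  rw [h6]
  simp only [Complex.add_re, Complex.ofReal_re]
  have e1 : ((-2 : ℂ) * c * (a v * b v)).re = -2 * c * (a v * b v).re := by
    have : (-2 : ℂ) * c = ((-2 * c : ℝ) : ℂ) := by push_cast; ring
    rw [this, Complex.re_ofReal_mul]
  have e2 : ((c : ℂ) ^ 2 * ((‖b v‖ ^ 2 : ℝ) : ℂ)).re = c ^ 2 * ‖b v‖ ^ 2 := by
    have : (c : ℂ) ^ 2 = ((c ^ 2 : ℝ) : ℂ) := by push_cast; ring
    rw [this, Complex.re_ofReal_mul, Complex.ofReal_re]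
  rw [e1, e2]

/-- the converse -/
theorem Sm.to_av {a b : HeightOneSpectrum (𝓞 K) → ℂ} {c : ℝ} (hb : Bc b)
    (h2 : Av (fun v => ((‖b v‖ ^ 2 : ℝ) : ℂ)) 1) (h : Sm fun v => a v - c * conj (b v)) :
    Av (fun v => a v * b v) c := by
  have h3 := (h.mul hb).av0
  have h4 := h3.add (h2.const_mul c)
  rw [zero_add, mul_one] at h4
  have e : (fun v => (a v - c * conj (b v)) * b v + c * ((‖b v‖ ^ 2 : ℝ) : ℂ)) =
      fun v => a v * b v := by
    funext v
    rw [← Complex.normSq_eq_norm_sq, ← Complex.mul_conj]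
    ring
  rw [e] at h4
  exact h4

end

end Pool.Agent.N210.GO
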