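import Pool.Agent.N210.GO.Stone
import Mathlib.Topology.Algebra.Group.Quotient

set_option autoImplicit false
set_option linter.unusedSectionVars false

/-!
# The kernels, and functions on the quotients
-/

namespace Pool.Agent.N210.GO

open Complex Filter Topology ComplexConjugate NumberField IsDedekindDomain MeasureTheory
  Pool.Agent.W540.BE Pool.Agent.TH553.RS Pool.Agent.TH553.ST Pool.Agent.H341R2
  Pool.Agent.N210.JN

section

variable {K : Type} [Field K] [NumberField K]
variable {G : Type} [Group G] [TopologicalSpace G] [IsTopologicalGroup G] [CompactSpace G]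
  [MeasurableSpace G] [BorelSpace G] {μ : Measure G} [IsProbabilityMeasure μ] [μ.IsHaarMeasure]
  {n : ℕ} {π : G →* Matrix.unitaryGroup (Fin n) ℂ}
variable {G' : Type} [Group G'] [TopologicalSpace G'] [IsTopologicalGroup G'] [CompactSpace G']
  [MeasurableSpace G'] [BorelSpace G'] {μ' : Measure G'} [IsProbabilityMeasure μ']
  [μ'.IsHaarMeasure] {n' : ℕ} {π' : G' →* Matrix.unitaryGroup (Fin n') ℂ}
  {x : HeightOneSpectrum (𝓞 K) → G} {x' : HeightOneSpectrum (𝓞 K) → G'}

/-- the irreducible representations with a partner -/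
def PS (x : HeightOneSpectrum (𝓞 K) → G) (x' : HeightOneSpectrum (𝓞 K) → G') (n : ℕ)
    (π : G →* Matrix.unitaryGroup (Fin n) ℂ) : Prop :=
  Irr π ∧ ∃ (n' : ℕ) (π' : G' →* Matrix.unitaryGroup (Fin n') ℂ) (c : ℝ), Irr π' ∧ c ^ 2 = 1 ∧
    Mt x x' c π π'

theorem Mt.congr {m : ℕ} {ρ : G →* Matrix.unitaryGroup (Fin m) ℂ} {c : ℝ} (h : Mt x x' c π π')
    (he : chi ρ = chi π) : Mt x x' c ρ π' := by
  unfold Mt
  rw [he]
  exact h

theorem Mt.cj {c : ℝ} (h : Mt x x' c π π') :
    Mt x x' c (Pool.Agent.TH553.ST.cj π) (Pool.Agent.TH553.ST.cj π') := by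
  have h1 := h.conj
  have e : (fun v => conj (chi π (x v) - c * conj (chi π' (x' v)))) =
      fun v => chi (Pool.Agent.TH553.ST.cj π) (x v) -
        c * conj (chi (Pool.Agent.TH553.ST.cj π') (x' v)) := by
    funext v
    rw [chi_cj, chi_cj, map_sub, map_mul, Complex.conj_ofReal]
  rw [e] at h1
  exact h1

theorem Mt.one : Mt x x' 1 (1 : G →* Matrix.unitaryGroup (Fin 1) ℂ)
    (1 : G' →* Matrix.unitaryGroup (Fin 1) ℂ) := by
  unfold Mt
  have e : (fun v => chi (1 : G →* Matrix.unitaryGroup (Fin 1) ℂ) (x v) -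
      ((1 : ℝ) : ℂ) * conj (chi (1 : G' →* Matrix.unitaryGroup (Fin 1) ℂ) (x' v))) =
      fun _ => 0 := by
    funext v
    rw [chi_triv1, chi_triv1]
    simp
  rw [e]
  exact Sm.zero

/-- the representations with a partner form a closed system -/
theorem sy (hx : Law x μ) (hx' : Law x' μ') (hP : HP x x') : Sy μ (PS x x') where
  irr := fun h => h.1
  one := ⟨Irr.one, 1, 1, 1, Irr.one, by norm_num, Mt.one⟩
  cj := fun {n π} h => by
    obtain ⟨h1, n', π', c, h2, h3, h4⟩ := h
    exact ⟨h1.cj, n', _, c, h2.cj, h3, h4.cj⟩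
  mul := fun {n m k π ρ σ} h h' hσ hne => by
    obtain ⟨h1, n', π', c, h2, h3, h4⟩ := h
    obtain ⟨h1', m', ρ', c', h2', h3', h4'⟩ := h'
    exact ⟨hσ, constituent hx hx' hP h1 h1' hσ h2 h2' h4 h4' hne⟩

/-- **The representations with a partner are the representations that are trivial on the
kernel.** -/
theorem partner_iff (hx : Law x μ) (hx' : Law x' μ') (hP : HP x x') (hπ : Irr π) :
    (∀ g ∈ kerP (PS x x'), π g = 1) ↔ ∃ (n' : ℕ) (π' : G' →* Matrix.unitaryGroup (Fin n') ℂ)
      (c : ℝ), Irr π' ∧ c ^ 2 = 1 ∧ Mt x x' c π π' := by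
  constructor
  · intro h
    obtain ⟨m, ρ, ⟨-, n', π', c, h2, h3, h4⟩, h5⟩ := (sy hx hx' hP).full hπ h
    exact ⟨n', π', c, h2, h3, h4.congr h5.symm⟩
  · intro h g hg
    exact hg n π ⟨hπ, h⟩

/-- comparison of the norms -/
theorem norm_transfer (hx' : Law x' μ') {Φ : G → ℂ} {Ψ : G' → ℂ} (h1' : Continuous Ψ)
    (h2' : ∀ g h, Ψ (h * g * h⁻¹) = Ψ g)
    (h : Sm fun v => Φ (x v) - Ψ (x' v)) {C : ℝ} (hC : ∀ g, ‖Φ g‖ ≤ C) (g : G') : ‖Ψ g‖ ≤ C := by
  set f : G' → ℝ := fun g => max (‖Ψ g‖ - C) 0 with hf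
  have hfc : Continuous f := (h1'.norm.sub continuous_const).max continuous_const
  have h3 := hx' f hfc fun g h => by rw [hf]; simp only [h2']
  have h4 : Tendsto (mn fun v => f (x' v)) atTop (𝓝 0) := by
    refine squeeze_zero (fun N => mn_nonneg (fun v => le_max_right _ _) N)
      (fun N => mn_mono (fun v => ?_) N) h
    rw [hf]
    refine max_le ?_ (norm_nonneg _)
    have h5 := norm_sub_norm_le (Ψ (x' v)) (Φ (x v))
    rw [norm_sub_rev] at h5
    have h6 := hC (x v)
    linarith
  have h5 := tendsto_nhds_unique h3 h4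
  by_contra hcon
  push Not at hcon
  have h6 := int_pos (μ := μ') (f := f) hfc (fun g => le_max_right _ _) (g₀ := g) (by
    rw [hf]
    simp only
    rw [max_eq_left (by linarith)]
    intro h7
    linarith)
  linarith

/-- functions that are almost equal at the two families, and invariant under `N'` -/
def Pf (x : HeightOneSpectrum (𝓞 K) → G) (x' : HeightOneSpectrum (𝓞 K) → G')
    (N' : Subgroup G') (f : G → ℂ) (f' : G' → ℂ) : Prop :=
  Continuous f' ∧ (∀ g h, f' (h * g * h⁻¹) = f' g) ∧ (∀ g, ∀ n ∈ N', f' (g * n) = f' g) ∧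
    Sm fun v => f (x v) - f' (x' v)

theorem Pf.comb {J : Type} [Fintype J] {N' : Subgroup G'} {f : J → G → ℂ} {f' : J → G' → ℂ}
    (h : ∀ j, Pf x x' N' (f j) (f' j)) (a : J → ℂ) :
    Pf x x' N' (fun g => ∑ j, a j * f j g) fun g => ∑ j, a j * f' j g := by
  refine ⟨continuous_finsetSum _ fun j _ => continuous_const.mul (h j).1, fun g k => ?_,
    fun g n hn => ?_, ?_⟩
  · exact Finset.sum_congr rfl fun j _ => by rw [(h j).2.1]
  · exact Finset.sum_congr rfl fun j _ => by rw [(h j).2.2.1 g n hn]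
  · have key : ∀ s : Finset J, Sm fun v => ∑ j ∈ s, a j * (f j (x v) - f' j (x' v)) := by
      classical
      intro s
      induction s using Finset.induction_on with
      | empty =>
        simp only [Finset.sum_empty]
        exact Sm.zero
      | insert j s hj ih =>
        simp only [Finset.sum_insert hj]
        refine Sm.add ?_ ih
        simp only [mul_comm (a j)]
        exact (h j).2.2.2.mul (Bc.const (a j))
    have h1 := key Finset.univ
    have e : (fun v => ∑ j, a j * (f j (x v) - f' j (x' v))) =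
        fun v => ∑ j, a j * f j (x v) - ∑ j, a j * f' j (x' v) := by
      funext v
      rw [← Finset.sum_sub_distrib]
      exact Finset.sum_congr rfl fun j _ => by ring
    rw [e] at h1
    exact h1

/-- the kernel on the other side contains the kernel of a partner -/
theorem partner_triv {c : ℝ} (hπ : Irr π) (hπ' : Irr π') (hc : c ^ 2 = 1) (h : Mt x x' c π π') :
    ∀ g ∈ kerP (PS x' x), π' g = 1 :=
  fun _ hg => hg n' π' ⟨hπ', n, π, c, hπ, hc, h.symm hc⟩

theorem pf_chi (hx : Law x μ) (hx' : Law x' μ') (hP : HP x x') (hc : Continuous π)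
    (hs : Schur π) (ht : ∀ g ∈ kerP (PS x x'), π g = 1) :
    ∃ f' : G' → ℂ, Pf x x' (kerP (PS x' x)) (chi π) f' := by
  by_cases hn : n = 0
  · subst hn
    have h0 : ∀ g, chi π g = 0 := fun g => by
      unfold chi
      simp
    refine ⟨fun _ => 0, continuous_const, fun _ _ => rfl, fun _ _ _ => rfl, ?_⟩
    simp only [h0, sub_self]
    exact Sm.zero
  · obtain ⟨n', π', c, h1, h2, h3⟩ := (partner_iff hx hx' hP ⟨hc, hs, hn⟩).1 ht
    refine ⟨fun g => c * conj (chi π' g), continuous_const.mul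
      (Complex.continuous_conj.comp (cont_chi h1.c)), fun g h => by simp only [chi_cls],
      fun g k hk => ?_, h3⟩
    have h4 := partner_triv ⟨hc, hs, hn⟩ h1 h2 h3 k hk
    have h5 : π' (g * k) = π' g := by rw [map_mul, h4, mul_one]
    unfold chi
    simp only [h5]

/-- **Class functions on the quotient have partners.** -/
theorem pf_exists [T2Space G] (hx : Law x μ) (hx' : Law x' μ') (hP : HP x x') {f : G → ℂ}
    (hf : Continuous f) (hcl : ∀ g h, f (h * g * h⁻¹) = f g)
    (hN : ∀ g, ∀ n ∈ kerP (PS x x'), f (g * n) = f g) :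
    ∃ f' : G' → ℂ, Pf x x' (kerP (PS x' x)) f f' := by
  set N := kerP (PS x x') with hNdef
  have hcN : IsClosed (N : Set G) := (sy hx hx' hP).closed
  have hd : ∀ a b, a⁻¹ * b ∈ N → f a = f b := fun a b hab => by
    have h1 := hN a _ hab
    rw [mul_inv_cancel_left] at h1
    exact h1.symm
  set F : G ⧸ N → ℂ := down f hd with hF
  have hFc : Continuous F := down_cont hd hf
  have hFcl : ∀ g k : G ⧸ N, F (k * g * k⁻¹) = F g := by
    intro g k
    induction g using QuotientGroup.induction_on with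
    | _ g =>
    induction k using QuotientGroup.induction_on with
    | _ k => exact hcl g k
  letI : MeasurableSpace (G ⧸ N) := borel _
  haveI : BorelSpace (G ⧸ N) := ⟨rfl⟩
  -- approximations
  have key : ∀ i : ℕ, ∃ φ : G → ℂ, (∀ g, ‖f g - φ g‖ ≤ (1 / 2 : ℝ) ^ i) ∧
      ∃ φ' : G' → ℂ, Pf x x' (kerP (PS x' x)) φ φ' := by
    intro i
    obtain ⟨D, ⟨J, _, m, ρ, a, h1, h2⟩, h3⟩ := class_dense (G := G ⧸ N) hFc hFcl
      (ε := (1 / 2 : ℝ) ^ i) (by positivity)
    set σ : ∀ j, G →* Matrix.unitaryGroup (Fin (m j)) ℂ := fun j =>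
      (ρ j).comp (QuotientGroup.mk' N) with hσ
    have hσc : ∀ j, Continuous (σ j) := fun j => (h1 j).1.comp continuous_quot_mk
    have hσs : ∀ j, Schur (σ j) := fun j A hA => (h1 j).2 A fun g => by
      induction g using QuotientGroup.induction_on with
      | _ g => exact hA g
    have hσt : ∀ j, ∀ g ∈ N, σ j g = 1 := fun j g hg => by
      have h4 : (QuotientGroup.mk' N) g = 1 := (QuotientGroup.eq_one_iff g).2 hg
      change ρ j ((QuotientGroup.mk' N) g) = 1
      rw [h4, map_one]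
    choose f' hf' using fun j => pf_chi hx hx' hP (hσc j) (hσs j) (hσt j)
    refine ⟨fun g => ∑ j, a j * chi (σ j) g, fun g => ?_, _, Pf.comb hf' a⟩
    have h4 := h3 (QuotientGroup.mk g)
    rw [h2] at h4
    exact h4
  choose φ h1 φ' h2 using key
  -- the limit
  have h3 : ∀ i j, ∀ g, ‖φ' i g - φ' j g‖ ≤ (1 / 2 : ℝ) ^ i + (1 / 2 : ℝ) ^ j := by
    intro i j g
    refine norm_transfer hx' (x := x) (Φ := fun g => φ i g - φ j g)
      (Ψ := fun g => φ' i g - φ' j g) ((h2 i).1.sub (h2 j).1)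
      (fun g h => by rw [(h2 i).2.1, (h2 j).2.1]) ?_ (fun g => ?_) g
    · have h4 := (h2 i).2.2.2.sub (h2 j).2.2.2
      refine h4.of_le (C := 1) fun v => ?_
      rw [one_mul]
      apply le_of_eq
      congr 1
      ring
    · have e : φ i g - φ j g = (f g - φ j g) - (f g - φ i g) := by ring
      rw [e]
      refine (norm_sub_le _ _).trans ?_
      have := h1 i g
      have := h1 j g
      linarith
  have hlim : ∀ g, ∃ z, Tendsto (fun i => φ' i g) atTop (𝓝 z) := by
    intro g
    refine cauchySeq_tendsto_of_complete ?_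
    refine Metric.cauchySeq_iff'.2 fun ε hε => ?_
    obtain ⟨N0, hN0⟩ := exists_pow_lt_of_lt_one (show 0 < ε / 2 by positivity)
      (show (1 / 2 : ℝ) < 1 by norm_num)
    refine ⟨N0, fun i hi => ?_⟩
    rw [dist_eq_norm]
    have h5 := h3 i N0 g
    have h6 : (1 / 2 : ℝ) ^ i ≤ (1 / 2 : ℝ) ^ N0 :=
      pow_le_pow_of_le_one (by norm_num) (by norm_num) hi
    linarith
  choose f' hf' using hlim
  have h4 : ∀ i g, ‖φ' i g - f' g‖ ≤ 2 * (1 / 2 : ℝ) ^ i := by
    intro i g
    have h5 : Tendsto (fun j => ‖φ' i g - φ' j g‖) atTop (𝓝 ‖φ' i g - f' g‖) :=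
      ((tendsto_const_nhds).sub (hf' g)).norm
    refine le_of_tendsto h5 ?_
    filter_upwards [eventually_ge_atTop i] with j hj
    have h6 := h3 i j g
    have h7 : (1 / 2 : ℝ) ^ j ≤ (1 / 2 : ℝ) ^ i :=
      pow_le_pow_of_le_one (by norm_num) (by norm_num) hj
    linarith
  have hunif : TendstoUniformly φ' f' atTop := by
    rw [Metric.tendstoUniformly_iff]
    intro ε hε
    obtain ⟨N0, hN0⟩ := exists_pow_lt_of_lt_one (show 0 < ε / 2 by positivity)
      (show (1 / 2 : ℝ) < 1 by norm_num)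
    filter_upwards [eventually_ge_atTop N0] with i hi g
    rw [dist_comm, dist_eq_norm]
    have h6 := h4 i g
    have h7 : (1 / 2 : ℝ) ^ i ≤ (1 / 2 : ℝ) ^ N0 :=
      pow_le_pow_of_le_one (by norm_num) (by norm_num) hi
    linarith
  refine ⟨f', hunif.continuous (Eventually.of_forall fun i => (h2 i).1).frequently,
    fun g k => ?_, fun g k hk => ?_, ?_⟩
  · refine tendsto_nhds_unique (hf' _) ?_
    simp only [(h2 _).2.1]
    exact hf' g
  · refine tendsto_nhds_unique (hf' _) ?_
    have e : (fun i => φ' i (g * k)) = fun i => φ' i g := by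
      funext i
      exact (h2 i).2.2.1 g k hk
    rw [e]
    exact hf' g
  · unfold Sm
    rw [Metric.tendsto_nhds]
    intro ε hε
    obtain ⟨i, hi⟩ := exists_pow_lt_of_lt_one (show 0 < ε / 6 by positivity)
      (show (1 / 2 : ℝ) < 1 by norm_num)
    have h5 := (h2 i).2.2.2
    unfold Sm at h5
    rw [Metric.tendsto_nhds] at h5
    filter_upwards [h5 (ε / 6) (by positivity)] with M hM
    rw [dist_eq_norm, sub_zero, Real.norm_eq_abs,
      abs_of_nonneg (mn_nonneg (fun v => norm_nonneg _) M)] at hM ⊢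
    have h6 : ∀ v, ‖f (x v) - f' (x' v)‖ ≤ 3 * (1 / 2 : ℝ) ^ i +
        ‖φ i (x v) - φ' i (x' v)‖ := by
      intro v
      have e : f (x v) - f' (x' v) = (f (x v) - φ i (x v)) + (φ i (x v) - φ' i (x' v)) +
          (φ' i (x' v) - f' (x' v)) := by ring
      rw [e]
      have h7 := norm_add_le ((f (x v) - φ i (x v)) + (φ i (x v) - φ' i (x' v)))
        (φ' i (x' v) - f' (x' v))
      have h8 := norm_add_le (f (x v) - φ i (x v)) (φ i (x v) - φ' i (x' v))
      have h9 := h1 i (x v)
      have h10 := h4 i (x' v)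
      linarith
    have h7 := mn_mono h6 M
    rw [mn_addR] at h7
    have h8 := mn_constR (K := K) (a := 3 * (1 / 2 : ℝ) ^ i) (by positivity) M
    linarith

end

end Pool.Agent.N210.GO
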