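import Pool.Agent.N210.GO.Rel

set_option autoImplicit false
set_option linter.unusedSectionVars false

/-!
# Multiplicities and tensor products
-/

namespace Pool.Agent.N210.GO

open Complex Filter Topology ComplexConjugate NumberField IsDedekindDomain MeasureTheory
  Pool.Agent.W540.BE Pool.Agent.TH553.RS Pool.Agent.TH553.ST Pool.Agent.H341R2
  Pool.Agent.N210.JN
open scoped Matrix Kronecker

section

variable {G : Type} [Group G] [TopologicalSpace G] [IsTopologicalGroup G] [CompactSpace G]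
  [MeasurableSpace G] [BorelSpace G] {μ : Measure G} [IsProbabilityMeasure μ] [μ.IsHaarMeasure]
  {n₁ n₂ n₃ : ℕ} {π₁ : G →* Matrix.unitaryGroup (Fin n₁) ℂ}
  {π₂ : G →* Matrix.unitaryGroup (Fin n₂) ℂ} {π₃ : G →* Matrix.unitaryGroup (Fin n₃) ℂ}

theorem Irr.cj (h : Irr π₁) : Irr (cj π₁) := ⟨cont_cj h.c, schur_cj h.s, h.n⟩

theorem Irr.one : Irr (1 : G →* Matrix.unitaryGroup (Fin 1) ℂ) :=
  ⟨continuous_const, schur_one _, one_ne_zero⟩

theorem cont_tp (hc : Continuous π₁) (hc' : Continuous π₂) : Continuous (tp π₁ π₂) := by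
  refine Continuous.subtype_mk ?_ _
  refine continuous_matrix fun i j => ?_
  exact ((continuous_subtype_val.comp hc).matrix_elem i.1 j.1).mul
    ((continuous_subtype_val.comp hc').matrix_elem i.2 j.2)

theorem tp_trace (g : G) : (tp π₁ π₂ g : Matrix (Fin n₁ × Fin n₂) (Fin n₁ × Fin n₂) ℂ).trace =
    chi π₁ g * chi π₂ g := by
  change (Matrix.kroneckerMap (· * ·) (π₁ g : Matrix (Fin n₁) (Fin n₁) ℂ)
    (π₂ g : Matrix (Fin n₂) (Fin n₂) ℂ)).trace = _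
  exact Matrix.trace_kronecker _ _

/-- products of characters are sums of irreducible characters -/
theorem dec1_mul (hc : Continuous π₁) (hc' : Continuous π₂) :
    ∃ (J : Type) (_ : Fintype J) (m : J → ℕ) (ρ : ∀ j, G →* Matrix.unitaryGroup (Fin (m j)) ℂ),
      (∀ j, Irr (ρ j)) ∧ ∀ g, chi π₁ g * chi π₂ g = ∑ j, chi (ρ j) g := by
  obtain ⟨J, i, m, ρ, h1, h0, h2⟩ := dec1_aux _ _ (Nat.lt_succ_self _) (tp π₁ π₂)
    (cont_tp hc hc')
  refine ⟨J, i, m, ρ, fun j => ⟨(h1 j).1, (h1 j).2, h0 j⟩, fun g => ?_⟩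
  rw [← h2]
  exact (tp_trace g).symm

open Classical in
/-- orthogonality -/
theorem int_two (h₁ : Irr π₁) (h₂ : Irr π₂) : ∫ g, chi π₁ g * conj (chi π₂ g) ∂μ =
    if chi π₁ = chi π₂ then 1 else 0 := by
  split_ifs with h
  · rw [h]
    have h3 : ∀ g, chi π₂ g * conj (chi π₂ g) = ((‖chi π₂ g‖ ^ 2 : ℝ) : ℂ) := by
      intro g
      rw [Complex.mul_conj, Complex.normSq_eq_norm_sq]
    simp only [h3]
    have h4 : ∫ g, ((‖chi π₂ g‖ ^ 2 : ℝ) : ℂ) ∂μ = ((∫ g, ‖chi π₂ g‖ ^ 2 ∂μ : ℝ) : ℂ) :=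
      integral_ofReal
    rw [h4, int_sq h₂.c h₂.s h₂.n, Complex.ofReal_one]
  · exact int_mul_conj h₁.c h₁.s h₂.c h₂.s h

open Classical in
/-- the multiplicity of a character in a sum -/
theorem int_dec {J : Type} [Fintype J] {m : J → ℕ}
    {ρ : ∀ j, G →* Matrix.unitaryGroup (Fin (m j)) ℂ} (h : ∀ j, Irr (ρ j)) {f : G → ℂ}
    (hf : ∀ g, f g = ∑ j, chi (ρ j) g) (h₃ : Irr π₃) : ∫ g, f g * conj (chi π₃ g) ∂μ =
    ((Finset.univ.filter fun j => chi (ρ j) = chi π₃).card : ℂ) := by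
  simp only [hf, Finset.sum_mul]
  have hcj : ∀ j, Continuous fun g => chi (ρ j) g * conj (chi π₃ g) := fun j =>
    (cont_chi (h j).c).mul (Complex.continuous_conj.comp (cont_chi h₃.c))
  rw [integral_finsetSum _ fun j _ => intg (hcj j), Finset.card_filter]
  push_cast
  exact Finset.sum_congr rfl fun j _ => int_two (h j) h₃

/-- **The multiplicity is a natural number.** -/
theorem mult (h₁ : Irr π₁) (h₂ : Irr π₂) (h₃ : Irr π₃) :
    ∃ m : ℕ, ∫ g, chi π₁ g * chi π₂ g * chi π₃ g ∂μ = m := by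
  obtain ⟨J, _, m, ρ, h4, h5⟩ := dec1_mul h₁.c h₂.c
  classical
  have h6 := int_dec (μ := μ) h4 h5 h₃.cj
  simp only [chi_cj, Complex.conj_conj] at h6
  exact ⟨_, h6⟩

/-- the constituents of a sum -/
theorem int_const_ne {J : Type} [Fintype J] {m : J → ℕ}
    {ρ : ∀ j, G →* Matrix.unitaryGroup (Fin (m j)) ℂ} (h : ∀ j, Irr (ρ j)) {f : G → ℂ}
    (hf : ∀ g, f g = ∑ j, chi (ρ j) g) (j : J) : ∫ g, f g * conj (chi (ρ j) g) ∂μ ≠ 0 := by
  classical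
  rw [int_dec h hf (h j)]
  have : (Finset.univ.filter fun i => chi (ρ i) = chi (ρ j)).card ≠ 0 :=
    Finset.card_ne_zero.2 ⟨j, by simp⟩
  exact_mod_cast this

end

section

variable {K : Type} [Field K] [NumberField K]
variable {G : Type} [Group G] [TopologicalSpace G] [IsTopologicalGroup G] [CompactSpace G]
  [MeasurableSpace G] [BorelSpace G] {μ : Measure G} [IsProbabilityMeasure μ] [μ.IsHaarMeasure]
  {n₁ n₂ n₃ : ℕ} {π₁ : G →* Matrix.unitaryGroup (Fin n₁) ℂ}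
  {π₂ : G →* Matrix.unitaryGroup (Fin n₂) ℂ} {π₃ : G →* Matrix.unitaryGroup (Fin n₃) ℂ}
variable {G' : Type} [Group G'] [TopologicalSpace G'] [IsTopologicalGroup G'] [CompactSpace G']
  [MeasurableSpace G'] [BorelSpace G'] {μ' : Measure G'} [IsProbabilityMeasure μ']
  [μ'.IsHaarMeasure] {n₁' n₂' n₃' : ℕ} {π₁' : G' →* Matrix.unitaryGroup (Fin n₁') ℂ}
  {π₂' : G' →* Matrix.unitaryGroup (Fin n₂') ℂ} {π₃' : G' →* Matrix.unitaryGroup (Fin n₃') ℂ}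
  {x : HeightOneSpectrum (𝓞 K) → G} {x' : HeightOneSpectrum (𝓞 K) → G'} {c₁ c₂ c₃ : ℝ}

/-- products -/
theorem Mt.mul (h₁ : Mt x x' c₁ π₁ π₁') (h₂ : Mt x x' c₂ π₂ π₂') :
    Sm fun v => chi π₁ (x v) * chi π₂ (x v) -
      ((c₁ * c₂ : ℝ) : ℂ) * conj (chi π₁' (x' v) * chi π₂' (x' v)) := by
  have h := Sm.prod h₁ h₂ (bc_chi π₂ x) ((Bc.const (c₁ : ℂ)).mul (bc_chi π₁' x').conj)
  have e : (fun v => chi π₁ (x v) * chi π₂ (x v) - c₁ * conj (chi π₁' (x' v)) *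
      (c₂ * conj (chi π₂' (x' v)))) = fun v => chi π₁ (x v) * chi π₂ (x v) -
      ((c₁ * c₂ : ℝ) : ℂ) * conj (chi π₁' (x' v) * chi π₂' (x' v)) := by
    funext v
    rw [map_mul]
    push_cast
    ring
  rw [e] at h
  exact h

/-- **Partners have the same tensor products.** -/
theorem fusion (hx : Law x μ) (hx' : Law x' μ') (hi₁ : Irr π₁) (hi₂ : Irr π₂) (hi₃ : Irr π₃)
    (hi₁' : Irr π₁') (hi₂' : Irr π₂') (hi₃' : Irr π₃') (hc₁ : c₁ ^ 2 = 1) (hc₂ : c₂ ^ 2 = 1)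
    (hc₃ : c₃ ^ 2 = 1) (h₁ : Mt x x' c₁ π₁ π₁') (h₂ : Mt x x' c₂ π₂ π₂')
    (h₃ : Mt x x' c₃ π₃ π₃') :
    ∫ g, chi π₁ g * chi π₂ g * chi π₃ g ∂μ = ∫ g, chi π₁' g * chi π₂' g * chi π₃' g ∂μ' ∧
      (∫ g, chi π₁ g * chi π₂ g * chi π₃ g ∂μ ≠ 0 → c₁ * c₂ * c₃ = 1) := by
  have h := Sm.prod (Mt.mul h₁ h₂) h₃ (bc_chi π₃ x)
    ((Bc.const ((c₁ * c₂ : ℝ) : ℂ)).mul ((bc_chi π₁' x').mul (bc_chi π₂' x')).conj)
  have e : (fun v => chi π₁ (x v) * chi π₂ (x v) * chi π₃ (x v) -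
      ((c₁ * c₂ : ℝ) : ℂ) * conj (chi π₁' (x' v) * chi π₂' (x' v)) *
      (c₃ * conj (chi π₃' (x' v)))) = fun v => chi π₁ (x v) * chi π₂ (x v) * chi π₃ (x v) -
      ((c₁ * c₂ * c₃ : ℝ) : ℂ) * conj (chi π₁' (x' v) * chi π₂' (x' v) * chi π₃' (x' v)) := by
    funext v
    simp only [map_mul]
    push_cast
    ring
  rw [e] at h
  have hcj : Continuous fun g => chi π₁' g * chi π₂' g * chi π₃' g :=
    ((cont_chi hi₁'.c).mul (cont_chi hi₂'.c)).mul (cont_chi hi₃'.c)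
  have h4 := transfer hx hx' (Φ := fun g => chi π₁ g * chi π₂ g * chi π₃ g)
    (Ψ := fun g => ((c₁ * c₂ * c₃ : ℝ) : ℂ) * conj (chi π₁' g * chi π₂' g * chi π₃' g))
    (((cont_chi hi₁.c).mul (cont_chi hi₂.c)).mul (cont_chi hi₃.c))
    (fun g h => by rw [chi_cls, chi_cls, chi_cls])
    (continuous_const.mul (Complex.continuous_conj.comp hcj))
    (fun g h => by rw [chi_cls, chi_cls, chi_cls]) h
  rw [integral_const_mul, integral_conj] at h4
  obtain ⟨m, hm⟩ := mult (μ := μ) hi₁ hi₂ hi₃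
  obtain ⟨m', hm'⟩ := mult (μ := μ') hi₁' hi₂' hi₃'
  rw [hm, hm', Complex.conj_natCast] at h4
  rw [hm, hm']
  have h5 : (m : ℝ) = c₁ * c₂ * c₃ * m' := by
    have : ((m : ℝ) : ℂ) = ((c₁ * c₂ * c₃ * m' : ℝ) : ℂ) := by
      push_cast at h4 ⊢
      exact h4
    exact_mod_cast this
  have h6 : (c₁ * c₂ * c₃) ^ 2 = 1 := by
    rw [mul_pow, mul_pow, hc₁, hc₂, hc₃]
    norm_num
  rcases sq_eq_one_iff_of_side _ h6 with h7 | h7
  · rw [h7, one_mul] at h5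
    have h8 : m = m' := by exact_mod_cast h5
    exact ⟨by rw [h8], fun _ => h7⟩
  · rw [h7] at h5
    have h8 : (0 : ℝ) ≤ m := Nat.cast_nonneg _
    have h9 : (0 : ℝ) ≤ m' := Nat.cast_nonneg _
    have h10 : (m : ℝ) = 0 := by linarith
    have h11 : (m' : ℝ) = 0 := by linarith
    have h12 : m = 0 := by exact_mod_cast h10
    have h13 : m' = 0 := by exact_mod_cast h11
    refine ⟨by rw [h12, h13], fun h => ?_⟩
    rw [h12] at h
    simp at h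

/-- **The constituents of tensor products have partners.** -/
theorem constituent (hx : Law x μ) (hx' : Law x' μ') (hP : HP x x') (hi₁ : Irr π₁) (hi₂ : Irr π₂)
    (hi₃ : Irr π₃) (hi₁' : Irr π₁') (hi₂' : Irr π₂') (h₁ : Mt x x' c₁ π₁ π₁')
    (h₂ : Mt x x' c₂ π₂ π₂') (h : ∫ g, chi π₁ g * chi π₂ g * conj (chi π₃ g) ∂μ ≠ 0) :
    ∃ (n' : ℕ) (π' : G' →* Matrix.unitaryGroup (Fin n') ℂ) (c : ℝ), Irr π' ∧ c ^ 2 = 1 ∧
      Mt x x' c π₃ π' := by
  obtain ⟨J, _, m, ρ, h4, h5⟩ := dec1_mul hi₁'.c hi₂'.c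
  choose c hc hav using fun j => hP _ _ π₃ (ρ j) hi₃ (h4 j)
  have h6 := (Mt.mul h₁ h₂).mul (w := fun v => conj (chi π₃ (x v))) (bc_chi π₃ x).conj
  have e : (fun v => (chi π₁ (x v) * chi π₂ (x v) -
      ((c₁ * c₂ : ℝ) : ℂ) * conj (chi π₁' (x' v) * chi π₂' (x' v))) * conj (chi π₃ (x v))) =
      fun v => chi π₁ (x v) * chi π₂ (x v) * conj (chi π₃ (x v)) -
        ((c₁ * c₂ : ℝ) : ℂ) * conj (∑ j, chi π₃ (x v) * chi (ρ j) (x' v)) := by
    funext v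
    rw [h5, ← Finset.mul_sum, map_mul]
    ring
  rw [e] at h6
  have h7 := h6.av (av_law hx (f := fun g => chi π₁ g * chi π₂ g * conj (chi π₃ g))
    (((cont_chi hi₁.c).mul (cont_chi hi₂.c)).mul
      (Complex.continuous_conj.comp (cont_chi hi₃.c))) fun g h => by
    rw [chi_cls, chi_cls, chi_cls])
  have h8 := ((Av.sum Finset.univ fun j _ => hav j).conj).const_mul ((c₁ * c₂ : ℝ) : ℂ)
  have h9 := h7.unique h8
  rw [h9] at h
  have h10 : ∃ j, c j ≠ 0 := by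
    by_contra hcon
    push Not at hcon
    apply h
    simp [hcon]
  obtain ⟨j, hj⟩ := h10
  have h11 := (hc j).resolve_left hj
  exact ⟨m j, ρ j, c j, h4 j, h11, Mt.of_av hx hx' hi₃ (h4 j) h11 (hav j)⟩

end

end Pool.Agent.N210.GO
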