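import Pool.Agent.N210.GO.Main

set_option autoImplicit false
set_option linter.unusedSectionVars false

/-!
# Heights: reduction to representations of degree one
-/

namespace Pool.Agent.N210.GO

open Complex Filter Topology ComplexConjugate NumberField IsDedekindDomain MeasureTheory
  Pool.Agent.W540.BE Pool.Agent.TH553.RS Pool.Agent.TH553.ST Pool.Agent.H341R2
  Pool.Agent.N210.JN
open scoped Matrix

section

variable {H : Type} [Group H] [TopologicalSpace H] [IsTopologicalGroup H] [CompactSpace H]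
  [MeasurableSpace H] [BorelSpace H]

/-- the twist by a representation of degree one -/
noncomputable def tws {ι : Type} [Fintype ι] [DecidableEq ι]
    (ψ : H →* Matrix.unitaryGroup (Fin 1) ℂ) (π : H →* Matrix.unitaryGroup ι ℂ) :
    H →* Matrix.unitaryGroup ι ℂ where
  toFun g := ⟨chi ψ g • (π g : Matrix ι ι ℂ), by
    rw [Matrix.mem_unitaryGroup_iff, Matrix.star_eq_conjTranspose, Matrix.conjTranspose_smul,
      Matrix.smul_mul, Matrix.mul_smul, smul_smul, pi_starG']
    have h1 : chi ψ g * star (chi ψ g) = 1 := by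
      have h2 := norm_one1 ψ g
      rw [Complex.star_def, Complex.mul_conj, Complex.normSq_eq_norm_sq, h2]
      norm_num
    rw [h1, one_smul]⟩
  map_one' := by
    apply Subtype.ext
    change chi ψ 1 • ((π 1 : Matrix.unitaryGroup ι ℂ) : Matrix ι ι ℂ) = 1
    rw [map_one, chi_one, Nat.cast_one, one_smul]
    rfl
  map_mul' g h := by
    apply Subtype.ext
    change chi ψ (g * h) • ((π (g * h) : Matrix.unitaryGroup ι ℂ) : Matrix ι ι ℂ) =
      (chi ψ g • (π g : Matrix ι ι ℂ)) * (chi ψ h • (π h : Matrix ι ι ℂ))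
    have h1 : chi ψ (g * h) = chi ψ g * chi ψ h := by
      unfold chi
      rw [Matrix.trace_fin_one, Matrix.trace_fin_one, Matrix.trace_fin_one, pi_mul,
        Matrix.mul_apply, Fin.sum_univ_one]
    rw [h1, pi_mulG, Matrix.smul_mul, Matrix.mul_smul, smul_smul]

theorem tws_val {ι : Type} [Fintype ι] [DecidableEq ι]
    (ψ : H →* Matrix.unitaryGroup (Fin 1) ℂ) (π : H →* Matrix.unitaryGroup ι ℂ) (g : H) :
    (tws ψ π g : Matrix ι ι ℂ) = chi ψ g • (π g : Matrix ι ι ℂ) := rfl

theorem cont_tws {ι : Type} [Fintype ι] [DecidableEq ι]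
    {ψ : H →* Matrix.unitaryGroup (Fin 1) ℂ} {π : H →* Matrix.unitaryGroup ι ℂ}
    (h : Continuous ψ) (h' : Continuous π) : Continuous (tws ψ π) := by
  refine Continuous.subtype_mk ?_ _
  exact (cont_chi h).smul (continuous_subtype_val.comp h')

variable {μ : Measure H} [IsProbabilityMeasure μ] [μ.IsHaarMeasure]
  {n : ℕ} {π : H →* Matrix.unitaryGroup (Fin n) ℂ}

theorem chi_dt (π : H →* Matrix.unitaryGroup (Fin n) ℂ) (g : H) :
    chi (dt π) g = (π g : Matrix (Fin n) (Fin n) ℂ).det := by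
  unfold chi
  rw [Matrix.trace_fin_one]
  change ((π g : Matrix (Fin n) (Fin n) ℂ).det • (1 : Matrix (Fin 1) (Fin 1) ℂ)) 0 0 = _
  simp

/-- the determinant is a constituent of the power of the representation -/
theorem int_det_pos (hc : Continuous π) :
    ∃ c : ℝ, ∫ g, chi π g ^ n * conj (chi (dt π) g) ∂μ = c ∧ 0 < c := by
  set e := Fintype.equivFin (Fin n → Fin n) with he
  set ρ := ri e (tws (Pool.Agent.TH553.ST.cj (dt π)) (pw π n)) with hρ
  have hρc : Continuous ρ := cont_ri e (cont_tws (cont_cj (dt_cont hc)) (pw_cont hc n))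
  obtain ⟨c, -, h2, h3⟩ := int_real (μ := μ) hρc
  refine ⟨c, ?_, h3 (alt n ∘ e.symm) ?_ fun g => ?_⟩
  · rw [← h2, hρ]
    simp only [chi_ri, tws_val, Matrix.trace_smul, pw_trace, smul_eq_mul, chi_cj]
    congr 1
    funext g
    ring
  · intro h
    apply alt_ne (n := n)
    funext b
    have := congrFun h (e b)
    simpa using this
  · rw [hρ, ri_val, Matrix.submatrix_mulVec_equiv]
    have h4 : (alt n ∘ ⇑e.symm) ∘ ⇑e.symm.symm = alt n := by
      funext b
      simp
    rw [h4, tws_val, Matrix.smul_mulVec, pw_val, alt_inv, smul_smul, chi_cj, chi_dt]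
    have h5 : conj ((π g : Matrix (Fin n) (Fin n) ℂ).det) *
        (π g : Matrix (Fin n) (Fin n) ℂ).det = 1 := by
      have h6 := norm_one1 (dt π) g
      rw [chi_dt] at h6
      rw [mul_comm, Complex.mul_conj, Complex.normSq_eq_norm_sq, h6]
      norm_num
    rw [h5, one_smul]

end

section

variable {K : Type} [Field K] [NumberField K]
variable {G : Type} [Group G] [TopologicalSpace G] [IsTopologicalGroup G] [CompactSpace G]
  [MeasurableSpace G] [BorelSpace G] {μ : Measure G} [IsProbabilityMeasure μ] [μ.IsHaarMeasure]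
  {n : ℕ} {π : G →* Matrix.unitaryGroup (Fin n) ℂ}
variable {G' : Type} [Group G'] [TopologicalSpace G'] [IsTopologicalGroup G'] [CompactSpace G']
  [MeasurableSpace G'] [BorelSpace G'] {μ' : Measure G'} [IsProbabilityMeasure μ']
  [μ'.IsHaarMeasure] {n' : ℕ} {π' : G' →* Matrix.unitaryGroup (Fin n') ℂ}
  {x : HeightOneSpectrum (𝓞 K) → G} {x' : HeightOneSpectrum (𝓞 K) → G'}

/-- the correlation with a height -/
noncomputable def cor (x : HeightOneSpectrum (𝓞 K) → G) (x' : HeightOneSpectrum (𝓞 K) → G')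
    (π : G →* Matrix.unitaryGroup (Fin n) ℂ) (π' : G' →* Matrix.unitaryGroup (Fin n') ℂ)
    (τ : ℝ) (U : Ultrafilter ℝ) : ℝ :=
  M (nm K) U fun v => (chi π (x v) * chi π' (x' v) * ((nm K v : ℕ) : ℂ) ^ (-(τ * I : ℂ))).re

theorem cor_of_size {τ : ℝ} {m : ℤ}
    (hm : Tendsto (sz π x π' x' τ) (𝓝[>] 0) (𝓝 (-(m : ℝ)))) {U : Ultrafilter ℝ}
    (hU : (U : Filter ℝ) ≤ 𝓝[>] 0) : cor x x' π π' τ U = -(m : ℝ) := by
  unfold cor
  have e : (fun v => (chi π (x v) * chi π' (x' v) *
      ((nm K v : ℕ) : ℂ) ^ (-(τ * I : ℂ))).re) = fun v => (tc π x 0 v * tc π' x' τ v).re := by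
    funext v
    unfold tc
    simp only [Complex.ofReal_zero, zero_mul, neg_zero, Complex.cpow_zero, mul_one]
    rw [mul_assoc]
  rw [e]
  refine M_eq ?_
  have h1 := ((size_LP π x π' x' τ).2.mono_left hU).add (hm.mono_left hU)
  rw [zero_add] at h1
  refine h1.congr fun ε => ?_
  unfold sz
  ring

/-- a family with an average has no correlation with a height -/
theorem M_mean_zero {g : HeightOneSpectrum (𝓞 K) → ℂ} (hg : Bc g) {c : ℝ} (h : Av g c) {τ : ℝ}
    (hτ : τ ≠ 0) {U : Ultrafilter ℝ} (hU : (U : Filter ℝ) ≤ 𝓝[>] 0) :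
    (M (nm K) U fun v => (g v * ((nm K v : ℕ) : ℂ) ^ (-(τ * I : ℂ))).re) = 0 := by
  obtain ⟨B, hB⟩ := hg
  have h4 := mean_edge (g := g) (B := B) hB c (mn_tendsto h) τ
  rw [if_neg hτ] at h4
  exact M_of_tendsto hU h4

/-- no zeros and poles for representations of degree one at the points of height different from
zero -/
def NH (x : HeightOneSpectrum (𝓞 K) → G) (x' : HeightOneSpectrum (𝓞 K) → G') : Prop :=
  ∀ (ψ : G →* Matrix.unitaryGroup (Fin 1) ℂ) (ψ' : G' →* Matrix.unitaryGroup (Fin 1) ℂ),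
    Continuous ψ → Continuous ψ' → (∃ g, ψ g ≠ 1) → (∃ g, ψ' g ≠ 1) → ∀ τ : ℝ, τ ≠ 0 →
    ∀ Λ : ℂ → ℂ, MeromorphicAt Λ (1 + τ * I) →
      (∀ᶠ s in 𝓝 ((1 : ℂ) + τ * I), (1 : ℝ) < s.re → Λ s = LP ψ x ψ' x' s) →
      meromorphicOrderAt Λ (1 + τ * I) = 0

theorem int_chi_real {H : Type} [Group H] [TopologicalSpace H] [IsTopologicalGroup H]
    [CompactSpace H] [MeasurableSpace H] [BorelSpace H] {ν : Measure H} [IsProbabilityMeasure ν]
    [ν.IsHaarMeasure] {k : ℕ} {σ : H →* Matrix.unitaryGroup (Fin k) ℂ} (hc : Continuous σ) :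
    ∃ c : ℝ, ∫ g, chi σ g ∂ν = c := by
  obtain ⟨c, -, h, -⟩ := int_real (μ := ν) hc
  exact ⟨c, h⟩

/-- the correlation of a representation of degree one with another representation -/
theorem cor_zero (hx : Law x μ) (hx' : Law x' μ') (hM : Mero2 x x') (hH : NH x x')
    {ψ : G →* Matrix.unitaryGroup (Fin 1) ℂ} (hψ : Continuous ψ) (hi' : Irr π') {τ : ℝ}
    (hτ : τ ≠ 0) {U : Ultrafilter ℝ} (hU : (U : Filter ℝ) ≤ 𝓝[>] 0) :
    cor x x' ψ π' τ U = 0 := by
  have hψi : Irr ψ := ⟨hψ, schur_one _, one_ne_zero⟩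
  by_cases ht : ∃ g, ψ g ≠ 1
  · by_cases ht' : ∃ g, π' g ≠ 1
    · obtain ⟨Λ, h1, h2⟩ := hM 1 n' ψ π' hψi hi' ht ht' τ
      obtain ⟨m, h3, h4⟩ := order_LP h1 h2
      rw [cor_of_size h4 hU]
      by_cases hm : m = 0
      · rw [hm]
        simp
      · exfalso
        have h5 := (pair_rigid hx hx' hψi.c hψi.s hi'.c hi'.s h4 hm).2.1
        have h6 : 1 = n' := dim_eq (μ := μ) (μ' := μ') hψi.c hi'.c h5
        subst h6
        have h7 := hH ψ π' hψ hi'.c ht ht' τ hτ Λ h1 h2
        rw [h3] at h7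
        apply hm
        exact_mod_cast h7
    · push Not at ht'
      have hn' := dim_triv hi'.s hi'.n ht'
      subst hn'
      obtain ⟨c, hc⟩ := int_chi_real (ν := μ) hψ
      have h1 := av_chi hx hψi
      rw [hc] at h1
      unfold cor
      simp only [chi_triv ht', Nat.cast_one, mul_one]
      exact M_mean_zero (bc_chi ψ x) h1 hτ hU
  · push Not at ht
    obtain ⟨c, hc⟩ := int_chi_real (ν := μ') hi'.c
    have h1 := av_chi hx' hi'
    rw [hc] at h1
    unfold cor
    simp only [chi_triv ht, Nat.cast_one, one_mul]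
    exact M_mean_zero (bc_chi π' x') h1 hτ hU

/-- **It suffices to exclude heights for representations of degree one.** -/
theorem oz_of_nh (hx : Law x μ) (hx' : Law x' μ') (hM : Mero2 x x') (hH : NH x x') :
    OZ x x' := by
  intro n n' π π' hi hi' ht ht' τ hτ m hm
  have hN := sysF K
  by_contra hm0
  obtain ⟨U, hU⟩ := Ultrafilter.exists_le (𝓝[>] (0 : ℝ))
  obtain ⟨r, h1, h2, h3⟩ := pair_lim hx hx' hi.c hi.s hi'.c hi'.s τ hU
  have h4 : r = -(m : ℝ) := tendsto_nhds_unique h1 (hm.mono_left hU)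
  have h5 : (1 : ℝ) ≤ r ^ 2 := by
    rw [h4, neg_sq]
    have : 1 ≤ m ^ 2 := by
      have := Int.one_le_abs hm0
      rw [← sq_abs]
      nlinarith
    exact_mod_cast this
  obtain ⟨hr, h0, -⟩ := h3 h5
  have e : (fun v => ‖df r (tc π x 0) (tc π' x' τ) v‖ ^ 2) =
      fun v => ‖Dp π π' x x' τ r v‖ ^ 2 := by
    funext v
    rw [df_eq]
    have e1 : tc π x 0 = fun v => chi π (x v) := by
      funext v
      unfold tc
      simp
    rw [e1]
    rfl
  rw [e] at h0
  set C : ℝ := max n n' with hC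
  have hC0 : 0 ≤ C := le_max_of_le_left (Nat.cast_nonneg n)
  obtain ⟨D, hD⟩ := pow_lip hC0 n
  set E : HeightOneSpectrum (𝓞 K) → ℂ := fun v =>
    (r : ℂ) * (conj (chi π' (x' v)) * ((nm K v : ℕ) : ℂ) ^ (τ * I : ℂ)) with hE
  have hEn : ∀ v, ‖E v‖ = ‖chi π' (x' v)‖ := by
    intro v
    rw [hE]
    simp only
    rw [norm_mul, norm_mul, ← conj_q, Complex.norm_conj, Complex.norm_conj, norm_q,
      Complex.norm_real, Real.norm_eq_abs, hr, one_mul, mul_one]
  have hDE : ∀ v, Dp π π' x x' τ r v = chi π (x v) - E v := fun v => rfl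
  have hDb : Bc (Dp π π' x x' τ r) := by
    refine ⟨n + n', fun v => ?_⟩
    rw [hDE]
    refine (norm_sub_le _ _).trans ?_
    rw [hEn]
    exact add_le_add (norm_chi π _) (norm_chi π' _)
  -- the mean of the power of the first character
  obtain ⟨c, hcc, hcp⟩ := int_det_pos (μ := μ) hi.c
  have hdn : ∀ g, ‖chi (dt π) g‖ = 1 := norm_one1 (dt π)
  have hfc : Continuous fun g : G => chi π g ^ n * conj (chi (dt π) g) :=
    ((cont_chi hi.c).pow n).mul (Complex.continuous_conj.comp (cont_chi (dt_cont hi.c)))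
  have hm1 : (M (nm K) U fun v => (chi π (x v) ^ n * conj (chi (dt π) (x v))).re) = c := by
    rw [M_law hx hU (f := fun g => (chi π g ^ n * conj (chi (dt π) g)).re)
      (Complex.continuous_re.comp hfc) fun g h => by rw [chi_cls, chi_cls]]
    have h6 : ∫ g, (chi π g ^ n * conj (chi (dt π) g)).re ∂μ =
        (∫ g, chi π g ^ n * conj (chi (dt π) g) ∂μ).re := integral_re (intg hfc)
    rw [h6, hcc, Complex.ofReal_re]
  -- the second one
  obtain ⟨J, _, k, σ, d1, d2, -⟩ := dc_aux _ _ (Nat.lt_succ_self _) (pw π' n) (pw_cont hi'.c n)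
  have hEa : ∀ v, (E v ^ n * conj (chi (dt π) (x v))).re = ∑ j, r ^ n *
      (chi (dt π) (x v) * chi (σ j) (x' v) *
        ((nm K v : ℕ) : ℂ) ^ (-(((n * τ : ℝ) : ℂ) * I))).re := by
    intro v
    have e1 : ((nm K v : ℕ) : ℂ) ^ (-(((n * τ : ℝ) : ℂ) * I)) =
        (((nm K v : ℕ) : ℂ) ^ (-(τ * I : ℂ))) ^ n := by
      rw [← Complex.cpow_nat_mul]
      congr 1
      push_cast
      ring
    have e2 : E v ^ n * conj (chi (dt π) (x v)) = ((r ^ n : ℝ) : ℂ) *
        conj (chi (dt π) (x v) * (∑ j, chi (σ j) (x' v)) *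
        ((nm K v : ℕ) : ℂ) ^ (-(((n * τ : ℝ) : ℂ) * I))) := by
      rw [← d2, pw_trace, e1, hE]
      simp only
      rw [map_mul, map_mul, map_pow, map_pow, conj_q]
      push_cast
      ring
    rw [e2, Complex.re_ofReal_mul, Complex.conj_re, Finset.mul_sum, Finset.sum_mul,
      Complex.re_sum, Finset.mul_sum]
  have hbs : ∀ j, Bd fun v => (chi (dt π) (x v) * chi (σ j) (x' v) *
      ((nm K v : ℕ) : ℂ) ^ (-(((n * τ : ℝ) : ℂ) * I))).re := fun j => by
    refine ⟨k j, fun v => (Complex.abs_re_le_norm _).trans ?_⟩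
    rw [norm_mul, norm_mul, norm_q, mul_one, hdn, one_mul]
    exact norm_chi (σ j) _
  have hm2 : (M (nm K) U fun v => (E v ^ n * conj (chi (dt π) (x v))).re) = 0 := by
    simp only [hEa]
    rw [M_sum hN hU _ fun j _ => (hbs j).const_mul _]
    refine Finset.sum_eq_zero fun j _ => ?_
    rw [M_const_mul hN hU (hbs j)]
    have h6 := cor_zero hx hx' hM hH (dt_cont hi.c) (d1 j)
      (show (n * τ : ℝ) ≠ 0 from mul_ne_zero (Nat.cast_ne_zero.2 hi.n) hτ) hU
    unfold cor at h6
    rw [h6, mul_zero]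
  -- the difference
  have hbA : Bd fun v => (chi π (x v) ^ n * conj (chi (dt π) (x v))).re := by
    refine ⟨(n : ℝ) ^ n, fun v => (Complex.abs_re_le_norm _).trans ?_⟩
    rw [norm_mul, norm_pow, Complex.norm_conj, hdn, mul_one]
    exact pow_le_pow_left₀ (norm_nonneg _) (norm_chi π _) n
  have hbE : Bd fun v => (E v ^ n * conj (chi (dt π) (x v))).re := by
    refine ⟨(n' : ℝ) ^ n, fun v => (Complex.abs_re_le_norm _).trans ?_⟩
    rw [norm_mul, norm_pow, Complex.norm_conj, hdn, mul_one, hEn]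
    exact pow_le_pow_left₀ (norm_nonneg _) (norm_chi π' _) n
  have h6 : (M (nm K) U fun v => |D| * ‖Dp π π' x x' τ r v‖) = 0 := by
    rw [M_const_mul hN hU hDb.norm, M_zero_of_sq hN hU hDb.norm h0, mul_zero]
  have h7 : (M (nm K) U fun v => |(chi π (x v) ^ n * conj (chi (dt π) (x v))).re -
      (E v ^ n * conj (chi (dt π) (x v))).re|) = 0 := by
    refine M_zero_of_le hN hU (hbA.sub hbE).abs (hDb.norm.const_mul _) (fun v => abs_nonneg _)
      (fun v => ?_) h6
    rw [← Complex.sub_re, ← sub_mul]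
    refine (Complex.abs_re_le_norm _).trans ?_
    rw [norm_mul, Complex.norm_conj, hdn, mul_one]
    refine (hD _ _ ((norm_chi π _).trans (le_max_left _ _))
      ((hEn v).le.trans ((norm_chi π' _).trans (le_max_right _ _)))).trans ?_
    rw [hDE]
    exact mul_le_mul_of_nonneg_right (le_abs_self _) (norm_nonneg _)
  have h8 : M (nm K) U (fun v => (chi π (x v) ^ n * conj (chi (dt π) (x v))).re -
      (E v ^ n * conj (chi (dt π) (x v))).re) = 0 := by
    refine le_antisymm ?_ ?_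
    · rw [← h7]
      exact M_mono hN hU (hbA.sub hbE) (hbA.sub hbE).abs fun v => le_abs_self _
    · have h9 := M_mono hN hU (hbA.sub hbE).neg (hbA.sub hbE).abs fun v => neg_le_abs _
      rw [h7, M_neg hN hU (hbA.sub hbE)] at h9
      linarith
  rw [M_sub hN hU hbA hbE, hm1, hm2, sub_zero] at h8
  linarith

/-- groups without nontrivial representations of degree one -/
theorem nh_of_perf (hG : Perf G) : NH x x' := by
  intro ψ ψ' hψ _ ht _ τ _ Λ _ _
  obtain ⟨g, hg⟩ := ht
  exact absurd (hG ψ hψ g) hg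

end

end Pool.Agent.N210.GO
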