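import Pool.Agent.N210.GO.Ht

set_option autoImplicit false
set_option linter.unusedSectionVars false

/-!
# Class functions with a partner are invariant under the kernel
-/

namespace Pool.Agent.N210.GO

open Complex Filter Topology ComplexConjugate NumberField IsDedekindDomain MeasureTheory
  Pool.Agent.W540.BE Pool.Agent.TH553.RS Pool.Agent.TH553.ST Pool.Agent.H341R2
  Pool.Agent.N210.JN

section

variable {K : Type} [Field K] [NumberField K]
variable {G : Type} [Group G] [TopologicalSpace G] [IsTopologicalGroup G] [CompactSpace G]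
  [MeasurableSpace G] [BorelSpace G] {μ : Measure G} [IsProbabilityMeasure μ] [μ.IsHaarMeasure]
  {n : ℕ} {π : G →* Matrix.unitaryGroup (Fin n) ℂ}
variable {G' : Type} [Group G'] [TopologicalSpace G'] [IsTopologicalGroup G'] [CompactSpace G']
  [MeasurableSpace G'] [BorelSpace G'] {μ' : Measure G'} [IsProbabilityMeasure μ']
  [μ'.IsHaarMeasure] {n' : ℕ} {π' : G' →* Matrix.unitaryGroup (Fin n') ℂ}
  {x : HeightOneSpectrum (𝓞 K) → G} {x' : HeightOneSpectrum (𝓞 K) → G'}

theorem chi_dim_zero {H : Type} [Group H] {k : ℕ} (hk : k = 0)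
    (σ : H →* Matrix.unitaryGroup (Fin k) ℂ) (g : H) : chi σ g = 0 := by
  have h1 := norm_chi σ g
  have h2 : (k : ℝ) = 0 := by exact_mod_cast hk
  exact norm_le_zero_iff.1 (h1.trans h2.le)

/-- orthogonality to the characters without a partner -/
theorem orth_of_partner [T2Space G'] (hx : Law x μ) (hx' : Law x' μ') (hP : HP x x') {f : G → ℂ}
    {f' : G' → ℂ} (hf : Continuous f) (hcl : ∀ g h, f (h * g * h⁻¹) = f g) (hf' : Continuous f')
    (hcl' : ∀ g h, f' (h * g * h⁻¹) = f' g) (h : Sm fun v => f (x v) - f' (x' v)) (hi : Irr π)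
    (hπ : ¬ ∀ g ∈ kerP (PS x x'), π g = 1) : ∫ g, f g * conj (chi π g) ∂μ = 0 := by
  have h1 := h.mul (w := fun v => conj (chi π (x v))) (bc_chi π x).conj
  have e : (fun v => (f (x v) - f' (x' v)) * conj (chi π (x v))) =
      fun v => f (x v) * conj (chi π (x v)) - f' (x' v) * conj (chi π (x v)) := by
    funext v
    ring
  rw [e] at h1
  have h2 := h1.av (av_law hx (f := fun g => f g * conj (chi π g))
    (hf.mul (Complex.continuous_conj.comp (cont_chi hi.c))) fun g k => by rw [hcl, chi_cls])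
  refine h2.unique ?_
  refine mn_unif fun ε hε => ?_
  obtain ⟨D, ⟨J, _, m, ρ, a, h3, h4⟩, h5⟩ := class_dense (G := G') hf' hcl'
    (ε := ε / (n + 1)) (by positivity)
  have h6 : ∀ j, Av (fun v => chi (ρ j) (x' v) * conj (chi π (x v))) 0 := by
    intro j
    by_cases hm : m j = 0
    · have h0 : ∀ g, chi (ρ j) g = 0 := chi_dim_zero hm (ρ j)
      simp only [h0, zero_mul]
      exact Sm.zero.av0
    · have hρ : Irr (ρ j) := ⟨(h3 j).1, (h3 j).2, hm⟩
      obtain ⟨c, h7, h8⟩ := hP _ _ (Pool.Agent.TH553.ST.cj π) (ρ j) hi.cj hρ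
      simp only [chi_cj] at h8
      rcases h7 with h7 | h7
      · rw [h7] at h8
        simp only [mul_comm (chi (ρ j) _)]
        simpa using h8
      · exfalso
        apply hπ
        have h9 : Mt x x' c (Pool.Agent.TH553.ST.cj π) (ρ j) :=
          Mt.of_av hx hx' hi.cj hρ h7 (by
            simp only [chi_cj]
            exact h8)
        have h10 := h9.cj
        refine (partner_iff hx hx' hP hi).2 ⟨_, _, c, hρ.cj, h7, h10.congr ?_⟩
        funext g
        rw [chi_cj, chi_cj, Complex.conj_conj]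
  refine ⟨fun v => ∑ j, a j * (chi (ρ j) (x' v) * conj (chi π (x v))), 0, fun v => ?_, by
    simpa using hε.le, ?_⟩
  · have e1 : f' (x' v) * conj (chi π (x v)) -
        ∑ j, a j * (chi (ρ j) (x' v) * conj (chi π (x v))) =
        (f' (x' v) - D (x' v)) * conj (chi π (x v)) := by
      rw [h4, sub_mul, Finset.sum_mul]
      congr 1
      exact Finset.sum_congr rfl fun j _ => by ring
    rw [e1, norm_mul, Complex.norm_conj]
    have h7 := h5 (x' v)
    have h8 := norm_chi π (x v)
    calc ‖f' (x' v) - D (x' v)‖ * ‖chi π (x v)‖ ≤ ε / (n + 1) * n :=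
          mul_le_mul h7 h8 (norm_nonneg _) (by positivity)
      _ ≤ ε := by
        rw [div_mul_eq_mul_div, div_le_iff₀ (by positivity)]
        nlinarith
  · have h7 := Av.sum Finset.univ fun j _ => (h6 j).const_mul (a j)
    simp only [mul_zero, Finset.sum_const_zero] at h7
    exact h7

/-- **Class functions with a partner are invariant.** -/
theorem inv_of_partner [T2Space G] [T2Space G'] (hx : Law x μ) (hx' : Law x' μ') (hP : HP x x')
    {f : G → ℂ} {f' : G' → ℂ} (hf : Continuous f) (hcl : ∀ g h, f (h * g * h⁻¹) = f g)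
    (hf' : Continuous f') (hcl' : ∀ g h, f' (h * g * h⁻¹) = f' g)
    (h : Sm fun v => f (x v) - f' (x' v)) (g : G) (k : G) (hk : k ∈ kerP (PS x x')) :
    f (g * k) = f g := by
  set N := kerP (PS x x') with hN
  have key : ∀ ε : ℝ, 0 < ε → ∃ F : G → ℂ, Continuous F ∧ (∀ g h, F (h * g * h⁻¹) = F g) ∧
      (∀ g, F (g * k) = F g) ∧ ∫ g, ‖f g - F g‖ ^ 2 ∂μ ≤ ε ^ 2 := by
    intro ε hε
    obtain ⟨D, ⟨J, _, m, ρ, a, h3, h4⟩, h5⟩ := class_dense (G := G) hf hcl hε
    classical
    set J1 : Finset J := Finset.univ.filter fun j => ∀ g ∈ N, ρ j g = 1 with hJ1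
    set A : G → ℂ := fun g => ∑ j ∈ J1, a j * chi (ρ j) g with hA
    set B : G → ℂ := fun g => ∑ j ∈ J1ᶜ, a j * chi (ρ j) g with hB
    have hAc : Continuous A := continuous_finsetSum _ fun j _ =>
      continuous_const.mul (cont_chi (h3 j).1)
    have hBc : Continuous B := continuous_finsetSum _ fun j _ =>
      continuous_const.mul (cont_chi (h3 j).1)
    have hAcl : ∀ g h, A (h * g * h⁻¹) = A g := fun g h => by
      rw [hA]
      simp only [chi_cls]
    have hD : ∀ g, D g = A g + B g := fun g => by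
      rw [h4, hA, hB]
      exact (Finset.sum_add_sum_compl J1 _).symm
    have hcj : ∀ {X Y : G → ℂ}, Continuous X → Continuous Y →
        Continuous fun g => X g * conj (Y g) := fun hX hY =>
      hX.mul (Complex.continuous_conj.comp hY)
    -- orthogonality
    have hmj : ∀ j ∈ J1ᶜ, m j ≠ 0 := by
      intro j hj hm
      rw [Finset.mem_compl, hJ1, Finset.mem_filter] at hj
      refine hj ⟨Finset.mem_univ _, fun g _ => ?_⟩
      apply Subtype.ext
      ext i
      exact (Fin.cast hm i).elim0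
    have hperp : ∀ j ∈ J1ᶜ, ∫ g, (f g - A g) * conj (chi (ρ j) g) ∂μ = 0 := by
      intro j hj
      have hρ : Irr (ρ j) := ⟨(h3 j).1, (h3 j).2, hmj j hj⟩
      have hnt : ¬ ∀ g ∈ N, ρ j g = 1 := by
        intro h6
        rw [Finset.mem_compl, hJ1, Finset.mem_filter] at hj
        exact hj ⟨Finset.mem_univ _, h6⟩
      have h6 := orth_of_partner hx hx' hP hf hcl hf' hcl' h hρ hnt
      have h7 : ∫ g, A g * conj (chi (ρ j) g) ∂μ = 0 := by
        rw [hA]
        simp only [Finset.sum_mul]
        have hci : ∀ i, Continuous fun g => a i * chi (ρ i) g * conj (chi (ρ j) g) := fun i =>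
          hcj (continuous_const.mul (cont_chi (h3 i).1)) (cont_chi hρ.c)
        rw [integral_finsetSum _ fun i _ => intg (hci i)]
        refine Finset.sum_eq_zero fun i hi => ?_
        simp only [mul_assoc]
        rw [integral_const_mul]
        by_cases hmi : m i = 0
        · have h0 : ∀ g, chi (ρ i) g = 0 := chi_dim_zero hmi (ρ i)
          simp [h0]
        · have hρi : Irr (ρ i) := ⟨(h3 i).1, (h3 i).2, hmi⟩
          rw [int_mul_conj hρi.c hρi.s hρ.c hρ.s ?_, mul_zero]
          intro heq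
          apply hnt
          have h8 := (partner_iff hx hx' hP hρi).1 (Finset.mem_filter.1 hi).2
          obtain ⟨n', π', c, h9, h10, h11⟩ := h8
          exact (partner_iff hx hx' hP hρ).2 ⟨n', π', c, h9, h10, h11.congr heq.symm⟩
      have h8 : (fun g => (f g - A g) * conj (chi (ρ j) g)) =
          fun g => f g * conj (chi (ρ j) g) - A g * conj (chi (ρ j) g) := by
        funext g
        ring
      rw [h8, integral_sub (intg (hcj hf (cont_chi hρ.c))) (intg (hcj hAc (cont_chi hρ.c))), h6,
        h7, sub_zero]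
    have hperp2 : ∫ g, (f g - A g) * conj (B g) ∂μ = 0 := by
      have e1 : ∀ g, (f g - A g) * conj (B g) =
          ∑ j ∈ J1ᶜ, conj (a j) * ((f g - A g) * conj (chi (ρ j) g)) := by
        intro g
        rw [hB]
        simp only
        rw [map_sum, Finset.mul_sum]
        exact Finset.sum_congr rfl fun j _ => by rw [map_mul]; ring
      simp only [e1]
      have hcj2 : ∀ j, Continuous fun g => conj (a j) * ((f g - A g) * conj (chi (ρ j) g)) :=
        fun j => continuous_const.mul (hcj (hf.sub hAc) (cont_chi (h3 j).1))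
      rw [integral_finsetSum _ fun j _ => intg (hcj2 j)]
      exact Finset.sum_eq_zero fun j hj => by rw [integral_const_mul, hperp j hj, mul_zero]
    refine ⟨A, hAc, hAcl, fun g => ?_, ?_⟩
    · rw [hA]
      refine Finset.sum_congr rfl fun j hj => ?_
      have h6 := (Finset.mem_filter.1 hj).2 k hk
      have h7 : ρ j (g * k) = ρ j g := by rw [map_mul, h6, mul_one]
      unfold chi
      rw [h7]
    · have h6 : ∫ g, ‖f g - D g‖ ^ 2 ∂μ ≤ ε ^ 2 := by
        have h7 : ∫ g, ‖f g - D g‖ ^ 2 ∂μ ≤ ∫ _, ε ^ 2 ∂μ := by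
          refine integral_mono (intg ?_) (integrable_const _) fun g =>
            pow_le_pow_left₀ (norm_nonneg _) (h5 g) 2
          have hDc : Continuous D := by
            have : D = fun g => A g + B g := funext hD
            rw [this]
            exact hAc.add hBc
          exact (hf.sub hDc).norm.pow 2
        simpa using h7
      refine le_trans ?_ h6
      have e2 : ∀ g, ‖f g - D g‖ ^ 2 = ‖f g - A g‖ ^ 2 - 2 * ((f g - A g) * conj (B g)).re +
          ‖B g‖ ^ 2 := by
        intro g
        rw [hD, ← sub_sub, Complex.sq_norm, Complex.sq_norm, Complex.sq_norm,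
          Complex.normSq_sub]
        ring
      simp only [e2]
      have hc1 : Continuous fun g => ‖f g - A g‖ ^ 2 := (hf.sub hAc).norm.pow 2
      have hc2 : Continuous fun g => 2 * ((f g - A g) * conj (B g)).re :=
        continuous_const.mul (Complex.continuous_re.comp (hcj (hf.sub hAc) hBc))
      have hc3 : Continuous fun g => ‖B g‖ ^ 2 := hBc.norm.pow 2
      have e3 : ∫ g, (‖f g - A g‖ ^ 2 - 2 * ((f g - A g) * conj (B g)).re + ‖B g‖ ^ 2) ∂μ =
          (∫ g, ‖f g - A g‖ ^ 2 ∂μ) - (∫ g, 2 * ((f g - A g) * conj (B g)).re ∂μ) +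
            ∫ g, ‖B g‖ ^ 2 ∂μ := by
        have e5 := integral_add (μ := μ) (intg (hc1.sub hc2)) (intg hc3)
        have e6 := integral_sub (μ := μ) (intg hc1) (intg hc2)
        simp only [Pi.sub_apply] at e5
        rw [e5, e6]
      have e4 : ∫ g, 2 * ((f g - A g) * conj (B g)).re ∂μ = 0 := by
        rw [integral_const_mul]
        have h7 : ∫ g, ((f g - A g) * conj (B g)).re ∂μ =
            (∫ g, (f g - A g) * conj (B g) ∂μ).re := integral_re (intg (hcj (hf.sub hAc) hBc))
        rw [h7, hperp2]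
        simp
      rw [e3, e4, sub_zero]
      have h7 : 0 ≤ ∫ g, ‖B g‖ ^ 2 ∂μ := integral_nonneg fun g => sq_nonneg _
      linarith
  -- the conclusion
  by_contra hne
  have hcont : Continuous fun g => ‖f (g * k) - f g‖ ^ 2 :=
    ((hf.comp (continuous_id.mul continuous_const)).sub hf).norm.pow 2
  have h1 := int_pos (μ := μ) (f := fun g => ‖f (g * k) - f g‖ ^ 2) hcont
    (fun g => sq_nonneg _) (g₀ := g) (by
      have : f (g * k) - f g ≠ 0 := sub_ne_zero.2 hne
      positivity)
  set I0 := ∫ g, ‖f (g * k) - f g‖ ^ 2 ∂μ with hI0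
  obtain ⟨F, h2, h3, h4, h5⟩ := key (Real.sqrt (I0 / 8)) (Real.sqrt_pos.2 (by positivity))
  rw [Real.sq_sqrt (by positivity)] at h5
  have hc1 : Continuous fun g => ‖f g - F g‖ ^ 2 := (hf.sub h2).norm.pow 2
  have h6 : ∫ g, ‖f (g * k) - F (g * k)‖ ^ 2 ∂μ = ∫ g, ‖f g - F g‖ ^ 2 ∂μ := by
    have e1 : ∀ g, ‖f (g * k) - F (g * k)‖ ^ 2 = ‖f (k * g) - F (k * g)‖ ^ 2 := by
      intro g
      have e2 : k * g = k * (g * k) * k⁻¹ := by group
      rw [e2, hcl, h3]
    simp only [e1]
    exact integral_mul_left_eq_self (fun g => ‖f g - F g‖ ^ 2) k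
  have h7 : I0 ≤ ∫ g, (2 * ‖f (g * k) - F (g * k)‖ ^ 2 + 2 * ‖f g - F g‖ ^ 2) ∂μ := by
    rw [hI0]
    refine integral_mono (intg hcont) (intg ((continuous_const.mul
      (hc1.comp (continuous_id.mul continuous_const))).add (continuous_const.mul hc1)))
      fun g => ?_
    have e1 : f (g * k) - f g = (f (g * k) - F (g * k)) - (f g - F g) := by
      rw [h4]
      ring
    simp only
    rw [e1]
    have h8 := norm_sub_le (f (g * k) - F (g * k)) (f g - F g)
    have h9 : ‖(f (g * k) - F (g * k)) - (f g - F g)‖ ^ 2 ≤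
        (‖f (g * k) - F (g * k)‖ + ‖f g - F g‖) ^ 2 :=
      pow_le_pow_left₀ (norm_nonneg _) h8 2
    nlinarith [sq_nonneg (‖f (g * k) - F (g * k)‖ - ‖f g - F g‖)]
  have hcA : Continuous fun g => 2 * ‖f (g * k) - F (g * k)‖ ^ 2 :=
    continuous_const.mul (hc1.comp (continuous_id.mul continuous_const))
  have h8 : ∫ g, (2 * ‖f (g * k) - F (g * k)‖ ^ 2 + 2 * ‖f g - F g‖ ^ 2) ∂μ =
      4 * ∫ g, ‖f g - F g‖ ^ 2 ∂μ := by
    have hcB : Continuous fun g => 2 * ‖f g - F g‖ ^ 2 := continuous_const.mul hc1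
    rw [integral_add (intg hcA) (intg hcB), integral_const_mul, integral_const_mul, h6]
    ring
  rw [h8] at h7
  linarith

end

end Pool.Agent.N210.GO
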