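import Pool.Agent.N210.GO.Fun

set_option autoImplicit false
set_option linter.unusedSectionVars false

/-!
# The joint law
-/

namespace Pool.Agent.N210.GO

open Complex Filter Topology ComplexConjugate NumberField IsDedekindDomain MeasureTheory
  Pool.Agent.W540.BE Pool.Agent.TH553.RS Pool.Agent.TH553.ST Pool.Agent.H341R2
  Pool.Agent.N210.JN

section

variable {K : Type} [Field K] [NumberField K]
variable {G : Type} [Group G] [TopologicalSpace G] [IsTopologicalGroup G] [CompactSpace G]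
  [MeasurableSpace G] [BorelSpace G] {μ : Measure G} [IsProbabilityMeasure μ] [μ.IsHaarMeasure]
  {n : ℕ} {π : G →* Matrix.unitaryGroup (Fin n) ℂ}
variable {G' : Type} [Group G'] [TopologicalSpace G'] [IsTopologicalGroup G'] [CompactSpace G']
  [MeasurableSpace G'] [BorelSpace G'] {μ' : Measure G'} [IsProbabilityMeasure μ']
  [μ'.IsHaarMeasure] {n' : ℕ} {π' : G' →* Matrix.unitaryGroup (Fin n') ℂ}
  {x : HeightOneSpectrum (𝓞 K) → G} {x' : HeightOneSpectrum (𝓞 K) → G'}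

/-- the averages of the product of two characters -/
theorem av_all (hP : HP x x') (hc : Continuous π) (hs : Schur π) (hc' : Continuous π')
    (hs' : Schur π') : ∃ c : ℂ, Av (fun v => chi π (x v) * chi π' (x' v)) c := by
  by_cases hn : n = 0
  · subst hn
    have h0 : ∀ g, chi π g = 0 := fun g => by
      unfold chi
      simp
    simp only [h0, zero_mul]
    exact ⟨0, Sm.zero.av0⟩
  by_cases hn' : n' = 0
  · subst hn'
    have h0 : ∀ g, chi π' g = 0 := fun g => by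
      unfold chi
      simp
    simp only [h0, mul_zero]
    exact ⟨0, Sm.zero.av0⟩
  obtain ⟨c, -, h⟩ := hP n n' π π' ⟨hc, hs, hn⟩ ⟨hc', hs', hn'⟩
  exact ⟨c, h⟩

/-- **The joint averages exist.** -/
theorem joint_exists [T2Space G] [T2Space G'] (hP : HP x x') {F : G × G' → ℂ}
    (hF : Continuous F) (hcl : ∀ g k, F (k * g * k⁻¹) = F g) :
    ∃ L : ℂ, Av (fun v => F (x v, x' v)) L := by
  refine cauchySeq_tendsto_of_complete ?_
  refine Metric.cauchySeq_iff'.2 fun ε hε => ?_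
  obtain ⟨k, m, m', ρ, ρ', a, h1, h2, h4⟩ := class_dense2 hF
    (fun g g' k k' => hcl (g, g') (k, k')) (show 0 < ε / 5 by positivity)
  choose c hc using fun l => av_all hP (h1 l).1 (h1 l).2 (h2 l).1 (h2 l).2
  have h5 : Av (fun v => ∑ l, a l * (chi (ρ l) (x v) * chi (ρ' l) (x' v))) (∑ l, a l * c l) :=
    Av.sum Finset.univ fun l _ => (hc l).const_mul (a l)
  have h6 := Metric.tendsto_nhds.1 h5 (ε / 5) (by positivity)
  obtain ⟨N0, hN0⟩ := eventually_atTop.1 h6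
  refine ⟨N0, fun N hN => ?_⟩
  have h7 := hN0 N hN
  have h8 := hN0 N0 le_rfl
  have h9 : ∀ M, ‖mn (fun v => F (x v, x' v)) M -
      mn (fun v => ∑ l, a l * (chi (ρ l) (x v) * chi (ρ' l) (x' v))) M‖ ≤ ε / 5 := fun M =>
    mn_sub_le (fun v => h4 _ _) (by positivity) M
  rw [dist_eq_norm] at h7 h8 ⊢
  have e : mn (fun v => F (x v, x' v)) N - mn (fun v => F (x v, x' v)) N0 =
      (mn (fun v => F (x v, x' v)) N -
        mn (fun v => ∑ l, a l * (chi (ρ l) (x v) * chi (ρ' l) (x' v))) N) +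
      (mn (fun v => ∑ l, a l * (chi (ρ l) (x v) * chi (ρ' l) (x' v))) N - ∑ l, a l * c l) -
      ((mn (fun v => F (x v, x' v)) N0 -
        mn (fun v => ∑ l, a l * (chi (ρ l) (x v) * chi (ρ' l) (x' v))) N0) +
      (mn (fun v => ∑ l, a l * (chi (ρ l) (x v) * chi (ρ' l) (x' v))) N0 - ∑ l, a l * c l)) := by
    ring
  rw [e]
  refine lt_of_le_of_lt (norm_sub_le _ _) ?_
  have h10 := norm_add_le (mn (fun v => F (x v, x' v)) N -
        mn (fun v => ∑ l, a l * (chi (ρ l) (x v) * chi (ρ' l) (x' v))) N)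
      (mn (fun v => ∑ l, a l * (chi (ρ l) (x v) * chi (ρ' l) (x' v))) N - ∑ l, a l * c l)
  have h11 := norm_add_le (mn (fun v => F (x v, x' v)) N0 -
        mn (fun v => ∑ l, a l * (chi (ρ l) (x v) * chi (ρ' l) (x' v))) N0)
      (mn (fun v => ∑ l, a l * (chi (ρ l) (x v) * chi (ρ' l) (x' v))) N0 - ∑ l, a l * c l)
  have h12 := h9 N
  have h13 := h9 N0
  linarith

/-- the joint law -/
def JL2 (μ : Measure G) (μ' : Measure G') (x : HeightOneSpectrum (𝓞 K) → G)
    (x' : HeightOneSpectrum (𝓞 K) → G') : Prop :=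
  ∀ F : G × G' → ℂ, Continuous F → (∀ g k, F (k * g * k⁻¹) = F g) →
    Av (fun v => F (x v, x' v)) (∫ p, F p ∂(μ.prod μ'))

/-- from the characters to the joint law -/
theorem joint_of_chi [T2Space G] [T2Space G'] [SecondCountableTopology G]
    [SecondCountableTopology G']
    (h : ∀ (n n' : ℕ) (π : G →* Matrix.unitaryGroup (Fin n) ℂ)
      (π' : G' →* Matrix.unitaryGroup (Fin n') ℂ), Continuous π → Schur π → Continuous π' →
      Schur π' → Av (fun v => chi π (x v) * chi π' (x' v))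
        ((∫ g, chi π g ∂μ) * ∫ g, chi π' g ∂μ')) : JL2 μ μ' x x' := by
  intro F hF hcl
  refine mn_unif fun ε hε => ?_
  obtain ⟨k, m, m', ρ, ρ', a, h1, h2, h4⟩ := class_dense2 hF
    (fun g g' k k' => hcl (g, g') (k, k')) hε
  refine ⟨fun v => ∑ l, a l * (chi (ρ l) (x v) * chi (ρ' l) (x' v)),
    ∑ l, a l * ((∫ g, chi (ρ l) g ∂μ) * ∫ g, chi (ρ' l) g ∂μ'), fun v => h4 _ _, ?_, ?_⟩
  · have hci : ∀ l, Continuous fun p : G × G' => a l * (chi (ρ l) p.1 * chi (ρ' l) p.2) :=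
      fun l => continuous_const.mul (((cont_chi (h1 l).1).comp continuous_fst).mul
        ((cont_chi (h2 l).1).comp continuous_snd))
    have hFc : Continuous fun p : G × G' => ∑ l, a l * (chi (ρ l) p.1 * chi (ρ' l) p.2) :=
      continuous_finsetSum _ fun l _ => hci l
    have h5 : ∫ p, (∑ l, a l * (chi (ρ l) p.1 * chi (ρ' l) p.2)) ∂(μ.prod μ') =
        ∑ l, a l * ((∫ g, chi (ρ l) g ∂μ) * ∫ g, chi (ρ' l) g ∂μ') := by
      rw [integral_finsetSum _ fun l _ => intg (hci l)]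
      refine Finset.sum_congr rfl fun l _ => ?_
      rw [integral_const_mul, integral_prod_mul]
    rw [← h5, ← integral_sub (intg hFc) (intg hF)]
    refine (norm_integral_le_integral_norm _).trans ?_
    have h6 : ∫ p, ‖(∑ l, a l * (chi (ρ l) p.1 * chi (ρ' l) p.2)) - F p‖ ∂(μ.prod μ') ≤
        ∫ _, ε ∂(μ.prod μ') := by
      refine integral_mono ((intg hFc).sub (intg hF)).norm (integrable_const _) fun p => ?_
      simp only
      rw [norm_sub_rev]
      exact h4 p.1 p.2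
    simpa using h6
  · exact Av.sum Finset.univ fun l _ =>
      (h _ _ _ _ (h1 l).1 (h1 l).2 (h2 l).1 (h2 l).2).const_mul (a l)

/-- only trivial partners -/
theorem joint_of_top [T2Space G] [T2Space G'] [SecondCountableTopology G]
    [SecondCountableTopology G'] (hx : Law x μ) (hx' : Law x' μ') (hP : HP x x')
    (h : kerP (PS x x') = ⊤) : JL2 μ μ' x x' := by
  refine joint_of_chi fun n n' π π' hc hs hc' hs' => ?_
  by_cases hn' : n' = 0
  · subst hn'
    have h0 : ∀ g, chi π' g = 0 := fun g => by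
      unfold chi
      simp
    simp only [h0, mul_zero, integral_zero]
    exact Sm.zero.av0
  by_cases ht : ∃ g, π g ≠ 1
  · have hn : n ≠ 0 := ne_zero_of_nt ht
    obtain ⟨c, h1, h2⟩ := hP n n' π π' ⟨hc, hs, hn⟩ ⟨hc', hs', hn'⟩
    rcases h1 with h1 | h1
    · rw [int_chi hc hs ht, zero_mul]
      rw [h1] at h2
      simpa using h2
    · exfalso
      obtain ⟨g, hg⟩ := ht
      have h3 : g ∈ kerP (PS x x') := by
        rw [h]
        exact Subgroup.mem_top g
      exact hg (h3 n π ⟨⟨hc, hs, hn⟩, n', π', c, ⟨hc', hs', hn'⟩, h1,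
        Mt.of_av hx hx' ⟨hc, hs, hn⟩ ⟨hc', hs', hn'⟩ h1 h2⟩)
  · push Not at ht
    have h1 : ∫ g, chi π g ∂μ = n := by
      simp only [chi_triv ht]
      simp
    rw [h1]
    simp only [chi_triv ht]
    exact (av_chi hx' ⟨hc', hs', hn'⟩).const_mul (n : ℂ)

/-- the joint law makes the averages zero -/
theorem av_of_joint [SecondCountableTopology G] [SecondCountableTopology G']
    (h : JL2 μ μ' x x') (hi : Irr π) (hi' : Irr π') (ht : ∃ g, π g ≠ 1) :
    Av (fun v => chi π (x v) * chi π' (x' v)) 0 := by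
  have h1 := h (fun p => chi π p.1 * chi π' p.2) (((cont_chi hi.c).comp continuous_fst).mul
    ((cont_chi hi'.c).comp continuous_snd)) (fun g k => by
      change chi π (k.1 * g.1 * k.1⁻¹) * chi π' (k.2 * g.2 * k.2⁻¹) = _
      rw [chi_cls, chi_cls])
  rw [integral_prod_mul (fun g => chi π g) (fun g => chi π' g), int_chi hi.c hi.s ht,
    zero_mul] at h1
  exact h1

/-- a partner of a nontrivial representation is not trivial -/
theorem partner_nt (hx : Law x μ) {c : ℝ} (hi : Irr π) (hi' : Irr π') (ht : ∃ g, π g ≠ 1)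
    (hc : c ^ 2 = 1) (h : Mt x x' c π π') : ∃ g, π' g ≠ 1 := by
  by_contra hcon
  push Not at hcon
  have h1 : Av (fun v => chi π (x v)) (∫ g, chi π g ∂μ) := av_chi hx hi
  rw [int_chi hi.c hi.s ht] at h1
  have h2 := Sm.av h h1
  simp only [chi_triv hcon] at h2
  have h3 : Av (fun _ : HeightOneSpectrum (𝓞 K) => (c : ℂ) * conj (n' : ℂ))
      (c * conj (n' : ℂ)) := by
    have := (Av.one (K := K)).const_mul ((c : ℂ) * conj (n' : ℂ))
    simpa using this
  have h4 := h2.unique h3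
  have h5 : (c : ℂ) ≠ 0 := by
    intro h6
    have h7 : c = 0 := Complex.ofReal_eq_zero.1 h6
    rw [h7] at hc
    norm_num at hc
  have h6 : conj (n' : ℂ) ≠ 0 := by
    rw [Complex.conj_natCast]
    exact_mod_cast hi'.n
  exact mul_ne_zero h5 h6 h4.symm

/-- a nontrivial representation with a partner gives one with the sign one -/
theorem exists_positive (hG : Perf G) (hx : Law x μ) (hx' : Law x' μ') (hP : HP x x')
    (hi : Irr π) (ht : ∃ g, π g ≠ 1) {c : ℝ} (hi' : Irr π') (hc : c ^ 2 = 1)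
    (h : Mt x x' c π π') : ∃ (m m' : ℕ) (σ : G →* Matrix.unitaryGroup (Fin m) ℂ)
      (σ' : G' →* Matrix.unitaryGroup (Fin m') ℂ), Irr σ ∧ Irr σ' ∧ (∃ g, σ g ≠ 1) ∧
      Mt x x' 1 σ σ' := by
  obtain ⟨J, _, m, ρ, h1, h2⟩ := dec1_mul hi.c hi.cj.c
  have h3 : ∃ j, ∃ g, ρ j g ≠ 1 := by
    by_contra hcon
    push Not at hcon
    have h4 : ∀ j g, chi (ρ j) g = 1 := fun j g => by
      rw [chi_triv (hcon j), dim_triv (h1 j).s (h1 j).n (hcon j), Nat.cast_one]
    simp only [h4, chi_cj, Finset.sum_const, nsmul_eq_mul, mul_one] at h2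
    classical
    have h5 := int_two (μ := μ) hi hi
    rw [if_pos rfl] at h5
    simp only [h2] at h5
    have h6 : ((Finset.univ : Finset J).card : ℂ) = 1 := by simpa using h5
    have h7 := h2 1
    rw [h6, chi_one, Complex.conj_natCast] at h7
    have h8 : n * n = 1 := by exact_mod_cast h7
    have h9 : n = 1 := Nat.eq_one_of_mul_eq_one_right h8
    subst h9
    obtain ⟨g, hg⟩ := ht
    exact hg (hG π hi.c g)
  obtain ⟨j, hj⟩ := h3
  have h4 := int_const_ne (μ := μ) h1 h2 j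
  obtain ⟨m', ρ', c', h5, h6, h7⟩ := constituent hx hx' hP hi hi.cj (h1 j) hi' hi'.cj h h.cj h4
  have h8 := fusion hx hx' hi hi.cj (h1 j).cj hi' hi'.cj h5.cj hc hc h6 h h.cj h7.cj
  have h9 : c * c * c' = 1 := by
    refine h8.2 ?_
    simp only [chi_cj] at h4 ⊢
    exact h4
  have h10 : c' = 1 := by
    have : c * c = 1 := by rw [← pow_two, hc]
    rw [this, one_mul] at h9
    exact h9
  rw [h10] at h7
  exact ⟨_, _, _, _, h1 j, h5, hj, h7⟩

/-- **The orders.** -/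
theorem order_all (hO : OZ x x') (hM : Mero2 x x') (hi : Irr π)
    (hi' : Irr π') (ht : ∃ g, π g ≠ 1) (ht' : ∃ g, π' g ≠ 1) {τ : ℝ} {Λ : ℂ → ℂ}
    (h1 : MeromorphicAt Λ (1 + τ * I))
    (h2 : ∀ᶠ s in 𝓝 ((1 : ℂ) + τ * I), (1 : ℝ) < s.re → Λ s = LP π x π' x' s) :
    ∃ m : ℤ, meromorphicOrderAt Λ (1 + τ * I) = m ∧ (τ ≠ 0 → m = 0) ∧
      (τ = 0 → Av (fun v => chi π (x v) * chi π' (x' v)) (-(m : ℂ))) := by
  obtain ⟨m, h3, h4⟩ := order_LP h1 h2
  refine ⟨m, h3, fun h => hO n n' π π' hi hi' ht ht' τ h m h4, fun h => ?_⟩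
  subst h
  exact av_order hO hM hi hi' ht ht' h4

/-- the orders at `s = 1` are zero -/
def NoOrd2 (x : HeightOneSpectrum (𝓞 K) → G) (x' : HeightOneSpectrum (𝓞 K) → G') : Prop :=
  ∀ (n n' : ℕ) (π : G →* Matrix.unitaryGroup (Fin n) ℂ)
    (π' : G' →* Matrix.unitaryGroup (Fin n') ℂ), Irr π → Irr π' → (∃ g, π g ≠ 1) →
    (∃ g, π' g ≠ 1) → ∀ Λ : ℂ → ℂ, MeromorphicAt Λ (1 + (0 : ℝ) * I) →
      (∀ᶠ s in 𝓝 ((1 : ℂ) + (0 : ℝ) * I), (1 : ℝ) < s.re → Λ s = LP π x π' x' s) →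
      meromorphicOrderAt Λ (1 + (0 : ℝ) * I) = 0

/-- no poles at `s = 1` -/
def NoPole2 (x : HeightOneSpectrum (𝓞 K) → G) (x' : HeightOneSpectrum (𝓞 K) → G') : Prop :=
  ∀ (n n' : ℕ) (π : G →* Matrix.unitaryGroup (Fin n) ℂ)
    (π' : G' →* Matrix.unitaryGroup (Fin n') ℂ), Irr π → Irr π' → (∃ g, π g ≠ 1) →
    (∃ g, π' g ≠ 1) → ∀ Λ : ℂ → ℂ, MeromorphicAt Λ (1 + (0 : ℝ) * I) →
      (∀ᶠ s in 𝓝 ((1 : ℂ) + (0 : ℝ) * I), (1 : ℝ) < s.re → Λ s = LP π x π' x' s) →
      0 ≤ meromorphicOrderAt Λ (1 + (0 : ℝ) * I)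

theorem noOrd_of_joint [SecondCountableTopology G] [SecondCountableTopology G'] (hO : OZ x x')
    (hM : Mero2 x x') (h : JL2 μ μ' x x') : NoOrd2 x x' := by
  intro n n' π π' hi hi' ht ht' Λ h1 h2
  obtain ⟨m, h3, -, h4⟩ := order_all hO hM hi hi' ht ht' h1 h2
  have h5 := (h4 rfl).unique (av_of_joint h hi hi' ht)
  have h6 : m = 0 := by
    have : (m : ℂ) = 0 := by linear_combination -h5
    exact_mod_cast this
  rw [h3, h6]
  rfl

theorem noPole_of_noOrd (h : NoOrd2 x x') : NoPole2 x x' :=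
  fun n n' π π' hi hi' ht ht' Λ h1 h2 => (h n n' π π' hi hi' ht ht' Λ h1 h2).ge

theorem top_of_noOrd (hO : OZ x x') (hx : Law x μ) (hx' : Law x' μ') (hM : Mero2 x x')
    (h : NoOrd2 x x') : kerP (PS x x') = ⊤ := by
  rw [eq_top_iff]
  intro g _ n π hπ
  by_contra hg
  obtain ⟨hi, n', π', c, hi', hc, hm⟩ := hπ
  have h5 := partner_nt hx hi hi' ⟨g, hg⟩ hc hm
  obtain ⟨Λ, h6, h7⟩ := hM n n' π π' hi hi' ⟨g, hg⟩ h5 0
  obtain ⟨o, h8, -, h9⟩ := order_all hO hM hi hi' ⟨g, hg⟩ h5 h6 h7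
  have h10 := (h9 rfl).unique (hm.av hx' hi')
  have h12 := h n n' π π' hi hi' ⟨g, hg⟩ h5 Λ h6 h7
  rw [h8] at h12
  have h13 : o = 0 := by exact_mod_cast h12
  rw [h13] at h10
  have h14 : c = 0 := by
    have : (c : ℂ) = 0 := by rw [← h10]; simp
    exact_mod_cast this
  rw [h14] at hc
  norm_num at hc

theorem top_of_noPole (hG : Perf G) (hx : Law x μ) (hx' : Law x' μ') (hM : Mero2 x x')
    (h : NoPole2 x x') : kerP (PS x x') = ⊤ := by
  rw [eq_top_iff]
  intro g _ n π hπ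
  by_contra hg
  obtain ⟨hi, n', π', c, hi', hc, hm⟩ := hπ
  have hO := oz_of_perf hG hx hx'
  have hP := hp_of hO hx hx' hM
  obtain ⟨m, m', σ, σ', h1, h2, h3, h4⟩ := exists_positive hG hx hx' hP hi ⟨g, hg⟩ hi' hc hm
  have h5 := partner_nt hx h1 h2 h3 (by norm_num) h4
  obtain ⟨Λ, h6, h7⟩ := hM m m' σ σ' h1 h2 h3 h5 0
  obtain ⟨o, h8, -, h9⟩ := order_all hO hM h1 h2 h3 h5 h6 h7
  have h10 := (h9 rfl).unique (h4.av hx' h2)
  have h11 : o = -1 := by
    have : (o : ℂ) = -1 := by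
      rw [Complex.ofReal_one] at h10
      linear_combination -h10
    exact_mod_cast this
  have h12 := h m m' σ σ' h1 h2 h3 h5 Λ h6 h7
  rw [h8, h11] at h12
  have h13 : (0 : ℤ) ≤ -1 := by exact_mod_cast h12
  norm_num at h13

end

end Pool.Agent.N210.GO
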