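import Pool.Agent.N210.GO.Av
import Pool.Agent.N210.JN.Up

set_option autoImplicit false
set_option linter.unusedSectionVars false

/-!
# The averages of products of two characters
-/

namespace Pool.Agent.N210.GO

open Complex Filter Topology ComplexConjugate NumberField IsDedekindDomain MeasureTheory
  Pool.Agent.W540.BE Pool.Agent.TH553.RS Pool.Agent.TH553.ST Pool.Agent.H341R2
  Pool.Agent.N210.JN

/-- irreducible representations -/
structure Irr {H : Type} [Group H] [TopologicalSpace H] {n : ℕ}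
    (π : H →* Matrix.unitaryGroup (Fin n) ℂ) : Prop where
  c : Continuous π
  s : Schur π
  n : n ≠ 0

section

variable {K : Type} [Field K] [NumberField K]
variable {G : Type} [Group G] [TopologicalSpace G] [IsTopologicalGroup G] [CompactSpace G]
  [MeasurableSpace G] [BorelSpace G] {μ : Measure G} [IsProbabilityMeasure μ] [μ.IsHaarMeasure]
  {n : ℕ} {π : G →* Matrix.unitaryGroup (Fin n) ℂ}
variable {G' : Type} [Group G'] [TopologicalSpace G'] [IsTopologicalGroup G'] [CompactSpace G']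
  [MeasurableSpace G'] [BorelSpace G'] {μ' : Measure G'} [IsProbabilityMeasure μ']
  [μ'.IsHaarMeasure] {n' : ℕ} {π' : G' →* Matrix.unitaryGroup (Fin n') ℂ}
  {x : HeightOneSpectrum (𝓞 K) → G} {x' : HeightOneSpectrum (𝓞 K) → G'}

/-- a relation with a nonzero height makes all means of powers zero -/
theorem height_zero2 (hx : Law x μ) (hx' : Law x' μ')
    (hc : Continuous π) (hc' : Continuous π') {τ r : ℝ} (hr : |r| = 1) (hτ : τ ≠ 0)
    {U : Ultrafilter ℝ} (hU : (U : Filter ℝ) ≤ 𝓝[>] 0)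
    (h0 : (M (nm K) U fun v => ‖Dp π π' x x' τ r v‖ ^ 2) = 0) {a : ℕ} (ha : a ≠ 0) {c : ℝ}
    (hcc : ∫ g, chi π g ^ a ∂μ = c) : c = 0 := by
  have hN := sysF K
  set C : ℝ := max n n' with hC
  have hC0 : 0 ≤ C := le_max_of_le_left (Nat.cast_nonneg n)
  obtain ⟨D, hD⟩ := pow_lip hC0 a
  set E : HeightOneSpectrum (𝓞 K) → ℂ := fun v =>
    (r : ℂ) * (conj (chi π' (x' v)) * ((nm K v : ℕ) : ℂ) ^ (τ * I : ℂ)) with hE
  have hEn : ∀ v, ‖E v‖ = ‖chi π' (x' v)‖ := by
    intro v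
    rw [hE]
    simp only
    rw [norm_mul, norm_mul, ← conj_q, Complex.norm_conj, Complex.norm_conj, norm_q,
      Complex.norm_real, Real.norm_eq_abs, hr, one_mul, mul_one]
  have hDE : ∀ v, Dp π π' x x' τ r v = chi π (x v) - E v := fun v => rfl
  have hDb : Bc (Dp π π' x x' τ r) := by
    refine ⟨n + n', fun v => ?_⟩
    rw [hDE]
    refine (norm_sub_le _ _).trans ?_
    rw [hEn]
    exact add_le_add (norm_chi π _) (norm_chi π' _)
  -- the mean of the real part of the power of the first character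
  have hf : Continuous fun g : G => (chi π g ^ a).re :=
    Complex.continuous_re.comp ((cont_chi hc).pow a)
  have h1 : (M (nm K) U fun v => (chi π (x v) ^ a).re) = c := by
    rw [M_law hx hU (f := fun g => (chi π g ^ a).re) hf fun g h => by rw [chi_cls]]
    have h2 : ∫ g, (chi π g ^ a).re ∂μ = (∫ g, chi π g ^ a ∂μ).re :=
      integral_re (intg ((cont_chi hc).pow a))
    rw [h2, hcc, Complex.ofReal_re]
  -- the second one
  obtain ⟨c', hc1, -⟩ := int_pow_real (μ := μ') hc' a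
  have h3 := law_c hx' (f := fun g => chi π' g ^ a) ((cont_chi hc').pow a)
    fun g h => by rw [chi_cls]
  rw [hc1] at h3
  have hb2 : ∀ v, ‖chi π' (x' v) ^ a‖ ≤ (n' : ℝ) ^ a := fun v => by
    rw [norm_pow]
    exact pow_le_pow_left₀ (norm_nonneg _) (norm_chi π' _) a
  have h4 := mean_edge (g := fun v => chi π' (x' v) ^ a) hb2 c' (mn_tendsto h3) (a * τ)
  rw [if_neg (mul_ne_zero (Nat.cast_ne_zero.2 ha) hτ)] at h4
  have hEa : ∀ v, ((E v) ^ a).re = r ^ a * (chi π' (x' v) ^ a *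
      ((nm K v : ℕ) : ℂ) ^ (-(((a * τ : ℝ) : ℂ) * I))).re := by
    intro v
    have e1 : ((nm K v : ℕ) : ℂ) ^ (-(((a * τ : ℝ) : ℂ) * I)) =
        (((nm K v : ℕ) : ℂ) ^ (-(τ * I : ℂ))) ^ a := by
      rw [← Complex.cpow_nat_mul]
      congr 1
      push_cast
      ring
    have e2 : (E v) ^ a = ((r ^ a : ℝ) : ℂ) * conj (chi π' (x' v) ^ a *
        ((nm K v : ℕ) : ℂ) ^ (-(((a * τ : ℝ) : ℂ) * I))) := by
      rw [e1, hE]
      simp only
      rw [map_mul, map_pow, map_pow, conj_q]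
      push_cast
      ring
    rw [e2, Complex.re_ofReal_mul, Complex.conj_re]
  have h5 : (M (nm K) U fun v => ((E v) ^ a).re) = 0 := by
    simp only [hEa]
    have hb3 : Bd fun v => (chi π' (x' v) ^ a *
        ((nm K v : ℕ) : ℂ) ^ (-(((a * τ : ℝ) : ℂ) * I))).re := by
      refine ⟨(n' : ℝ) ^ a, fun v => (Complex.abs_re_le_norm _).trans ?_⟩
      rw [norm_mul, norm_q, mul_one]
      exact hb2 v
    rw [M_const_mul hN hU hb3, M_of_tendsto hU h4, mul_zero]
  -- the difference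
  have hbA : Bd fun v => (chi π (x v) ^ a).re := by
    refine ⟨(n : ℝ) ^ a, fun v => (Complex.abs_re_le_norm _).trans ?_⟩
    rw [norm_pow]
    exact pow_le_pow_left₀ (norm_nonneg _) (norm_chi π _) a
  have hbE : Bd fun v => ((E v) ^ a).re := by
    refine ⟨(n' : ℝ) ^ a, fun v => (Complex.abs_re_le_norm _).trans ?_⟩
    rw [norm_pow, hEn]
    exact pow_le_pow_left₀ (norm_nonneg _) (norm_chi π' _) a
  have h6 : (M (nm K) U fun v => |D| * ‖Dp π π' x x' τ r v‖) = 0 := by
    rw [M_const_mul hN hU hDb.norm, M_zero_of_sq hN hU hDb.norm h0, mul_zero]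
  have h7 : (M (nm K) U fun v => |(chi π (x v) ^ a).re - ((E v) ^ a).re|) = 0 := by
    refine M_zero_of_le hN hU (hbA.sub hbE).abs (hDb.norm.const_mul _) (fun v => abs_nonneg _)
      (fun v => ?_) h6
    rw [← Complex.sub_re]
    refine (Complex.abs_re_le_norm _).trans ?_
    refine (hD _ _ ((norm_chi π _).trans (le_max_left _ _))
      ((hEn v).le.trans ((norm_chi π' _).trans (le_max_right _ _)))).trans ?_
    rw [hDE]
    exact mul_le_mul_of_nonneg_right (le_abs_self _) (norm_nonneg _)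
  have h8 : M (nm K) U (fun v => (chi π (x v) ^ a).re - ((E v) ^ a).re) = 0 := by
    refine le_antisymm ?_ ?_
    · rw [← h7]
      exact M_mono hN hU (hbA.sub hbE) (hbA.sub hbE).abs fun v => le_abs_self _
    · have h9 := M_mono hN hU (hbA.sub hbE).neg (hbA.sub hbE).abs fun v => neg_le_abs _
      rw [h7, M_neg hN hU (hbA.sub hbE)] at h9
      linarith
  rw [M_sub hN hU hbA hbE, h1, h5, sub_zero] at h8
  exact h8

/-- the orders at the points of height different from zero -/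
theorem order_zero (hG : Perf G) (hx : Law x μ) (hx' : Law x' μ') (hi : Irr π) (hi' : Irr π')
    {τ : ℝ} (hτ : τ ≠ 0) {m : ℤ} (hm : Tendsto (sz π x π' x' τ) (𝓝[>] 0) (𝓝 (-(m : ℝ)))) :
    m = 0 := by
  by_contra hm0
  obtain ⟨V, hV⟩ := Ultrafilter.exists_le (𝓝[>] (0 : ℝ))
  obtain ⟨r, h1, h2, h3⟩ := pair_lim hx hx' hi.c hi.s hi'.c hi'.s τ hV
  have h4 : r = -(m : ℝ) := tendsto_nhds_unique h1 (hm.mono_left hV)
  have h5 : (1 : ℝ) ≤ r ^ 2 := by
    rw [h4, neg_sq]
    have : 1 ≤ m ^ 2 := by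
      have := Int.one_le_abs hm0
      rw [← sq_abs]
      nlinarith
    exact_mod_cast this
  obtain ⟨h6, h7, -⟩ := h3 h5
  have e : (fun v => ‖df r (tc π x 0) (tc π' x' τ) v‖ ^ 2) =
      fun v => ‖Dp π π' x x' τ r v‖ ^ 2 := by
    funext v
    rw [df_eq]
    have e1 : tc π x 0 = fun v => chi π (x v) := by
      funext v
      unfold tc
      simp
    rw [e1]
    rfl
  rw [e] at h7
  obtain ⟨c, h8, h9⟩ := int_pow_pos (μ := μ) hi.c (det_one hG hi.c)
  have h10 := height_zero2 hx hx' hi.c hi'.c h6 hτ hV h7 hi.n h8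
  linarith

/-- meromorphic continuations -/
def Mero2 (x : HeightOneSpectrum (𝓞 K) → G) (x' : HeightOneSpectrum (𝓞 K) → G') : Prop :=
  ∀ (n n' : ℕ) (π : G →* Matrix.unitaryGroup (Fin n) ℂ)
    (π' : G' →* Matrix.unitaryGroup (Fin n') ℂ), Irr π → Irr π' → (∃ g, π g ≠ 1) →
    (∃ g, π' g ≠ 1) → ∀ τ : ℝ, ∃ Λ : ℂ → ℂ, MeromorphicAt Λ (1 + τ * I) ∧
      ∀ᶠ s in 𝓝 ((1 : ℂ) + τ * I), (1 : ℝ) < s.re → Λ s = LP π x π' x' s

/-- no zeros and poles at the points of height different from zero -/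
def OZ (x : HeightOneSpectrum (𝓞 K) → G) (x' : HeightOneSpectrum (𝓞 K) → G') : Prop :=
  ∀ (n n' : ℕ) (π : G →* Matrix.unitaryGroup (Fin n) ℂ)
    (π' : G' →* Matrix.unitaryGroup (Fin n') ℂ), Irr π → Irr π' → (∃ g, π g ≠ 1) →
    (∃ g, π' g ≠ 1) → ∀ τ : ℝ, τ ≠ 0 → ∀ m : ℤ,
    Tendsto (sz π x π' x' τ) (𝓝[>] 0) (𝓝 (-(m : ℝ))) → m = 0

theorem oz_of_perf (hG : Perf G) (hx : Law x μ) (hx' : Law x' μ') : OZ x x' :=
  fun _ _ _ _ hi hi' _ _ _ hτ _ hm => order_zero hG hx hx' hi hi' hτ hm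

/-- the average is the negative of the order -/
theorem av_order (hO : OZ x x') (hM : Mero2 x x') (hi : Irr π)
    (hi' : Irr π') (ht : ∃ g, π g ≠ 1) (ht' : ∃ g, π' g ≠ 1) {m : ℤ}
    (hm : Tendsto (sz π x π' x' 0) (𝓝[>] 0) (𝓝 (-(m : ℝ)))) :
    Av (fun v => chi π (x v) * chi π' (x' v)) (-(m : ℂ)) := by
  obtain ⟨α, h1, h2, h3⟩ := exists_al π x π' x'
  have h4 := taub_pole h1 (L := LP π x π' x') (fun s _ => by
    unfold LP
    exact tprod_congr fun v => by rw [h3]) (m := m) (fun τ => by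
    obtain ⟨Λ, h5, h6⟩ := hM n n' π π' hi hi' ht ht' τ
    obtain ⟨m', h7, h8⟩ := order_LP h5 h6
    refine ⟨Λ, h5, ?_, h6⟩
    rw [h7]
    by_cases hτ : τ = 0
    · rw [if_pos hτ]
      subst hτ
      have h9 := tendsto_nhds_unique h8 hm
      have h10 : (m' : ℝ) = m := by linarith
      have h11 : m' = m := by exact_mod_cast h10
      rw [h11]
    · rw [if_neg hτ, hO n n' π π' hi hi' ht ht' τ hτ m' h8])
  refine h4.congr fun N => ?_
  congr 1
  funext v
  exact h2 v

/-- the order at `s = 1` -/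
theorem order_one (hx : Law x μ) (hx' : Law x' μ') (hi : Irr π)
    (hi' : Irr π') {m : ℤ} (hm : Tendsto (sz π x π' x' 0) (𝓝[>] 0) (𝓝 (-(m : ℝ)))) :
    m = 0 ∨ (m : ℝ) ^ 2 = 1 := by
  by_cases h : m = 0
  · exact Or.inl h
  · right
    have h1 := (pair_rigid hx hx' hi.c hi.s hi'.c hi'.s hm h).1
    have h2 : (m : ℤ) ^ 2 = 1 := by
      rw [← sq_abs, h1, one_pow]
    exact_mod_cast h2

/-- the averages of all products of two characters are `0`, `1` or `-1` -/
def HP (x : HeightOneSpectrum (𝓞 K) → G) (x' : HeightOneSpectrum (𝓞 K) → G') : Prop :=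
  ∀ (n n' : ℕ) (π : G →* Matrix.unitaryGroup (Fin n) ℂ)
    (π' : G' →* Matrix.unitaryGroup (Fin n') ℂ), Irr π → Irr π' →
    ∃ c : ℝ, (c = 0 ∨ c ^ 2 = 1) ∧ Av (fun v => chi π (x v) * chi π' (x' v)) c

theorem HP.symm (h : HP x x') : HP x' x := by
  intro n n' π π' hi hi'
  obtain ⟨c, h1, h2⟩ := h n' n π' π hi' hi
  refine ⟨c, h1, ?_⟩
  simp only [mul_comm (chi π _)]
  exact h2

theorem av_law (hx : Law x μ) {f : G → ℂ} (hf : Continuous f)
    (hcl : ∀ g h, f (h * g * h⁻¹) = f g) : Av (fun v => f (x v)) (∫ g, f g ∂μ) := law_c hx hf hcl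

theorem av_chi (hx : Law x μ) (hi : Irr π) :
    Av (fun v => chi π (x v)) (∫ g, chi π g ∂μ) :=
  av_law hx (cont_chi hi.c) fun g h => chi_cls π g h

/-- **All averages exist.** -/
theorem hp_of (hO : OZ x x') (hx : Law x μ) (hx' : Law x' μ') (hM : Mero2 x x') :
    HP x x' := by
  intro n n' π π' hi hi'
  by_cases ht : ∃ g, π g ≠ 1
  · by_cases ht' : ∃ g, π' g ≠ 1
    · obtain ⟨Λ, h1, h2⟩ := hM n n' π π' hi hi' ht ht' 0
      obtain ⟨m, h3, h4⟩ := order_LP h1 h2
      refine ⟨-(m : ℝ), ?_, ?_⟩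
      · rcases order_one hx hx' hi hi' h4 with h | h
        · left
          rw [h]
          simp
        · right
          rw [neg_sq]
          exact h
      · have h5 := av_order hO hM hi hi' ht ht' h4
        push_cast
        exact h5
    · push Not at ht'
      refine ⟨0, Or.inl rfl, ?_⟩
      have h1 := av_chi hx hi
      rw [int_chi hi.c hi.s ht] at h1
      have h2 := h1.const_mul (n' : ℂ)
      rw [mul_zero] at h2
      simp only [chi_triv ht', Complex.ofReal_zero]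
      simp only [mul_comm _ (n' : ℂ)]
      exact h2
  · push Not at ht
    have hn := dim_triv hi.s hi.n ht
    subst hn
    simp only [chi_triv ht, Nat.cast_one, one_mul]
    have h1 := av_chi hx' hi'
    by_cases ht' : ∃ g, π' g ≠ 1
    · rw [int_chi hi'.c hi'.s ht'] at h1
      exact ⟨0, Or.inl rfl, by simpa using h1⟩
    · push Not at ht'
      have hn' := dim_triv hi'.s hi'.n ht'
      subst hn'
      refine ⟨1, Or.inr (by norm_num), ?_⟩
      simp only [chi_triv ht', Nat.cast_one, Complex.ofReal_one]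
      exact Av.one

end

end Pool.Agent.N210.GO
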