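import Pool.Agent.N210.GO.Pairs

set_option autoImplicit false
set_option linter.unusedSectionVars false

/-!
# Partners
-/

namespace Pool.Agent.N210.GO

open Complex Filter Topology ComplexConjugate NumberField IsDedekindDomain MeasureTheory
  Pool.Agent.W540.BE Pool.Agent.TH553.RS Pool.Agent.TH553.ST Pool.Agent.H341R2
  Pool.Agent.N210.JN

section

variable {K : Type} [Field K] [NumberField K]
variable {G : Type} [Group G] [TopologicalSpace G] [IsTopologicalGroup G] [CompactSpace G]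
  [MeasurableSpace G] [BorelSpace G] {μ : Measure G} [IsProbabilityMeasure μ] [μ.IsHaarMeasure]
  {n : ℕ} {π : G →* Matrix.unitaryGroup (Fin n) ℂ}
variable {G' : Type} [Group G'] [TopologicalSpace G'] [IsTopologicalGroup G'] [CompactSpace G']
  [MeasurableSpace G'] [BorelSpace G'] {μ' : Measure G'} [IsProbabilityMeasure μ']
  [μ'.IsHaarMeasure] {n' : ℕ} {π' : G' →* Matrix.unitaryGroup (Fin n') ℂ}
  {x : HeightOneSpectrum (𝓞 K) → G} {x' : HeightOneSpectrum (𝓞 K) → G'}

theorem bc_chi (π : G →* Matrix.unitaryGroup (Fin n) ℂ) (x : HeightOneSpectrum (𝓞 K) → G) :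
    Bc fun v => chi π (x v) := ⟨n, fun v => norm_chi π _⟩

/-- partners with the sign `c` -/
def Mt (x : HeightOneSpectrum (𝓞 K) → G) (x' : HeightOneSpectrum (𝓞 K) → G') (c : ℝ)
    (π : G →* Matrix.unitaryGroup (Fin n) ℂ) (π' : G' →* Matrix.unitaryGroup (Fin n') ℂ) : Prop :=
  Sm fun v => chi π (x v) - c * conj (chi π' (x' v))

theorem av_sq (hx : Law x μ) (hi : Irr π) : Av (fun v => ((‖chi π (x v)‖ ^ 2 : ℝ) : ℂ)) 1 := by
  have h1 := av_law hx (f := fun g => ((‖chi π g‖ ^ 2 : ℝ) : ℂ))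
    (Complex.continuous_ofReal.comp ((cont_chi hi.c).norm.pow 2)) fun g h => by rw [chi_cls]
  have h2 : ∫ g, ((‖chi π g‖ ^ 2 : ℝ) : ℂ) ∂μ = 1 := by
    have h3 : ∫ g, ((‖chi π g‖ ^ 2 : ℝ) : ℂ) ∂μ = ((∫ g, ‖chi π g‖ ^ 2 ∂μ : ℝ) : ℂ) :=
      integral_ofReal
    rw [h3, int_sq hi.c hi.s hi.n, Complex.ofReal_one]
  rw [h2] at h1
  exact h1

theorem Mt.of_av (hx : Law x μ) (hx' : Law x' μ') (hi : Irr π) (hi' : Irr π') {c : ℝ}
    (hc : c ^ 2 = 1) (h : Av (fun v => chi π (x v) * chi π' (x' v)) c) : Mt x x' c π π' :=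
  Sm.of_av hc (av_sq hx hi) (av_sq hx' hi') h

theorem Mt.av (hx' : Law x' μ') (hi' : Irr π') {c : ℝ} (h : Mt x x' c π π') :
    Av (fun v => chi π (x v) * chi π' (x' v)) c :=
  Sm.to_av (bc_chi π' x') (av_sq hx' hi') h

theorem Mt.symm {c : ℝ} (hc : c ^ 2 = 1) (h : Mt x x' c π π') : Mt x' x c π' π := by
  have h1 := h.conj.mul (w := fun _ => -(c : ℂ)) ⟨‖-(c : ℂ)‖, fun _ => le_rfl⟩
  have e : (fun v => conj (chi π (x v) - c * conj (chi π' (x' v))) * -(c : ℂ)) =
      fun v => chi π' (x' v) - c * conj (chi π (x v)) := by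
    funext v
    rw [map_sub, map_mul, Complex.conj_conj, Complex.conj_ofReal]
    have hc' : (c : ℂ) ^ 2 = 1 := by exact_mod_cast hc
    linear_combination (chi π' (x' v)) * hc'
  rw [e] at h1
  exact h1

/-- the integrals of functions that agree at the two families -/
theorem transfer (hx : Law x μ) (hx' : Law x' μ') {Φ : G → ℂ} {Ψ : G' → ℂ} (h1 : Continuous Φ)
    (h2 : ∀ g h, Φ (h * g * h⁻¹) = Φ g) (h1' : Continuous Ψ) (h2' : ∀ g h, Ψ (h * g * h⁻¹) = Ψ g)
    (h : Sm fun v => Φ (x v) - Ψ (x' v)) : ∫ g, Φ g ∂μ = ∫ g, Ψ g ∂μ' :=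
  (h.av (av_law hx h1 h2)).unique (av_law hx' h1' h2')

/-- a class function that is small at a family with a law is zero -/
theorem zero_of_small (hx : Law x μ) {Φ : G → ℂ} (h1 : Continuous Φ)
    (h2 : ∀ g h, Φ (h * g * h⁻¹) = Φ g) (h : Sm fun v => Φ (x v)) (g : G) : Φ g = 0 := by
  obtain ⟨C, hC⟩ := (isCompact_univ (X := G)).exists_bound_of_continuousOn h1.continuousOn
  have h3 := h.sq ⟨C, fun v => hC _ (Set.mem_univ _)⟩
  have h4 := hx (fun g => ‖Φ g‖ ^ 2) (h1.norm.pow 2) fun g h => by rw [h2]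
  have h5 := tendsto_nhds_unique h4 h3
  by_contra hg
  have h6 := int_pos (μ := μ) (f := fun g => ‖Φ g‖ ^ 2) (h1.norm.pow 2) (fun g => sq_nonneg _)
    (g₀ := g) (by positivity)
  linarith

theorem sq_eq_one_iff_of_side (c : ℝ) (h : c ^ 2 = 1) : c = 1 ∨ c = -1 := by
  have h1 : (c - 1) * (c + 1) = 0 := by linear_combination h
  rcases mul_eq_zero.1 h1 with h2 | h2
  · left
    linarith
  · right
    linarith

/-- **The partner is unique.** -/
theorem Mt.unique (hx' : Law x' μ') {c₁ c₂ : ℝ} (hc₁ : c₁ ^ 2 = 1) (hc₂ : c₂ ^ 2 = 1) {n₁ n₂ : ℕ}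
    {π₁ : G' →* Matrix.unitaryGroup (Fin n₁) ℂ} {π₂ : G' →* Matrix.unitaryGroup (Fin n₂) ℂ}
    (hi₁ : Irr π₁) (hi₂ : Irr π₂) (h₁ : Mt x x' c₁ π π₁) (h₂ : Mt x x' c₂ π π₂) :
    c₁ = c₂ ∧ n₁ = n₂ ∧ ∀ g, chi π₁ g = chi π₂ g := by
  have h1 := (h₂.sub h₁).conj
  have e : (fun v => conj (chi π (x v) - c₂ * conj (chi π₂ (x' v)) -
      (chi π (x v) - c₁ * conj (chi π₁ (x' v))))) =
      fun v => c₁ * chi π₁ (x' v) - c₂ * chi π₂ (x' v) := by
    funext v
    simp only [map_sub, map_mul, Complex.conj_conj, Complex.conj_ofReal]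
    ring
  rw [e] at h1
  have h2 := zero_of_small hx' (Φ := fun g => c₁ * chi π₁ g - c₂ * chi π₂ g)
    ((continuous_const.mul (cont_chi hi₁.c)).sub (continuous_const.mul (cont_chi hi₂.c)))
    (fun g h => by rw [chi_cls, chi_cls]) h1
  have h3 := h2 1
  rw [chi_one, chi_one] at h3
  have h4 : c₁ * n₁ = c₂ * n₂ := by
    have : ((c₁ * n₁ - c₂ * n₂ : ℝ) : ℂ) = 0 := by
      push_cast
      exact h3
    have := Complex.ofReal_eq_zero.1 this
    linarith
  have hp₁ : (0 : ℝ) < n₁ := by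
    have := hi₁.n
    positivity
  have hp₂ : (0 : ℝ) < n₂ := by
    have := hi₂.n
    positivity
  have h5 : c₁ = c₂ := by
    rcases sq_eq_one_iff_of_side c₁ hc₁ with h6 | h6 <;>
    rcases sq_eq_one_iff_of_side c₂ hc₂ with h7 | h7 <;> subst h6 <;> subst h7
    · rfl
    · exfalso; linarith
    · exfalso; linarith
    · rfl
  subst h5
  have hne : c₁ ≠ 0 := by
    intro h
    rw [h] at hc₁
    norm_num at hc₁
  refine ⟨rfl, ?_, fun g => ?_⟩
  · have := mul_left_cancel₀ hne h4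
    exact_mod_cast this
  · have h6 := h2 g
    have h7 : (c₁ : ℂ) * (chi π₁ g - chi π₂ g) = 0 := by linear_combination h6
    rcases mul_eq_zero.1 h7 with h8 | h8
    · exact absurd (Complex.ofReal_eq_zero.1 h8) hne
    · exact sub_eq_zero.1 h8

/-- the absolute values -/
theorem Mt.abs {c : ℝ} (hc : c ^ 2 = 1) (h : Mt x x' c π π') (k : ℕ) :
    Sm fun v => (chi π (x v) * conj (chi π (x v))) ^ k -
      (chi π' (x' v) * conj (chi π' (x' v))) ^ k := by
  have hc' : (c : ℂ) ^ 2 = 1 := by exact_mod_cast hc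
  have hb := bc_chi π x
  have hb' := bc_chi π' x'
  have h0 : Sm fun v => chi π (x v) * conj (chi π (x v)) - chi π' (x' v) * conj (chi π' (x' v)) := by
    have h1 := Sm.prod (a := fun v => chi π (x v)) (b := fun v => c * conj (chi π' (x' v)))
      (a' := fun v => conj (chi π (x v))) (b' := fun v => conj (c * conj (chi π' (x' v)))) h
      (by
        have := h.conj
        simpa only [map_sub] using this) hb.conj ((Bc.const (c : ℂ)).mul hb'.conj)
    have e : (fun v => chi π (x v) * conj (chi π (x v)) -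
        c * conj (chi π' (x' v)) * conj (c * conj (chi π' (x' v)))) =
        fun v => chi π (x v) * conj (chi π (x v)) - chi π' (x' v) * conj (chi π' (x' v)) := by
      funext v
      rw [map_mul, Complex.conj_conj, Complex.conj_ofReal]
      linear_combination (-(chi π' (x' v) * conj (chi π' (x' v)))) * hc'
    rw [e] at h1
    exact h1
  induction k with
  | zero =>
    simp only [pow_zero, sub_self]
    exact Sm.zero
  | succ k ih =>
    simp only [pow_succ]
    refine ih.prod h0 (hb.mul hb.conj) ?_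
    obtain ⟨C, hC⟩ := hb'.mul hb'.conj
    exact ⟨C ^ k, fun v => by
      rw [norm_pow]
      exact pow_le_pow_left₀ (norm_nonneg _) (hC v) k⟩

/-- **Partners have the same degree.** -/
theorem Mt.dim (hx : Law x μ) (hx' : Law x' μ') (hc : Continuous π) (hc' : Continuous π') {c : ℝ}
    (hc1 : c ^ 2 = 1) (h : Mt x x' c π π') : n = n' := by
  refine dim_eq (μ := μ) (μ' := μ') hc hc' fun k => ?_
  have e : ∀ z : ℂ, (z * conj z) ^ k = (((‖z‖ ^ 2) ^ k : ℝ) : ℂ) := by
    intro z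
    rw [Complex.mul_conj, Complex.normSq_eq_norm_sq]
    push_cast
    rfl
  have h1 := h.abs hc1 k
  simp only [e] at h1
  have h2 := transfer hx hx' (Φ := fun g => (((‖chi π g‖ ^ 2) ^ k : ℝ) : ℂ))
    (Ψ := fun g => (((‖chi π' g‖ ^ 2) ^ k : ℝ) : ℂ))
    (Complex.continuous_ofReal.comp (cont_sq hc k)) (fun g h => by rw [chi_cls])
    (Complex.continuous_ofReal.comp (cont_sq hc' k)) (fun g h => by rw [chi_cls]) h1
  have h3 : ∀ {H : Type} [MeasurableSpace H] {ν : Measure H} {f : H → ℝ},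
      ∫ g, (f g : ℂ) ∂ν = ((∫ g, f g ∂ν : ℝ) : ℂ) := integral_ofReal
  rw [h3, h3] at h2
  exact_mod_cast h2

end

end Pool.Agent.N210.GO
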