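import Pool.Agent.N210.GO.Fus

set_option autoImplicit false
set_option linter.unusedSectionVars false

/-!
# Systems of irreducible representations that are closed under tensor products
-/

namespace Pool.Agent.N210.GO

open Complex Filter Topology ComplexConjugate MeasureTheory
  Pool.Agent.TH553.ST Pool.Agent.N210.JN
open scoped Matrix Kronecker ComplexOrder

section

variable {G : Type} [Group G] [TopologicalSpace G]

/-- decompositions of the matrix coefficients -/
def Dc {ι : Type} [Fintype ι] [DecidableEq ι] (π : G →* Matrix.unitaryGroup ι ℂ) : Prop :=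
  ∃ (J : Type) (_ : Fintype J) (m : J → ℕ) (ρ : ∀ j, G →* Matrix.unitaryGroup (Fin (m j)) ℂ),
    (∀ j, Irr (ρ j)) ∧ (∀ g, (π g : Matrix ι ι ℂ).trace = ∑ j, chi (ρ j) g) ∧
    ∀ A : Matrix ι ι ℂ, ∃ B : ∀ j, Matrix (Fin (m j)) (Fin (m j)) ℂ, ∀ g,
      (A * (π g : Matrix ι ι ℂ)).trace =
        ∑ j, (B j * (ρ j g : Matrix (Fin (m j)) (Fin (m j)) ℂ)).trace

/-- **Complete reducibility.** -/
theorem dc_aux : ∀ (N : ℕ) (ι : Type) [Fintype ι] [DecidableEq ι], Fintype.card ι < N →
    ∀ (π : G →* Matrix.unitaryGroup ι ℂ), Continuous π → Dc π := by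
  intro N
  induction N with
  | zero =>
    intro ι _ _ h
    exact absurd h (Nat.not_lt_zero _)
  | succ N ih =>
    intro ι _ _ hcard π hπ
    classical
    by_cases hem0 : Fintype.card ι = 0
    · have : IsEmpty ι := Fintype.card_eq_zero_iff.1 hem0
      refine ⟨Empty, inferInstance, fun e => e.elim, fun e => e.elim, fun e => e.elim,
        fun g => ?_, fun A => ⟨fun e => e.elim, fun g => ?_⟩⟩ <;> simp [Matrix.trace]
    by_cases hS : SchurG π
    · refine ⟨Unit, inferInstance, fun _ => Fintype.card ι, fun _ => ri (Fintype.equivFin ι) π,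
        fun _ => ⟨cont_ri _ hπ, schur_ri _ hS, hem0⟩, fun g => ?_,
        fun A => ⟨fun _ => A.submatrix (Fintype.equivFin ι).symm (Fintype.equivFin ι).symm,
          fun g => ?_⟩⟩
      · simp only [Finset.univ_unique, Finset.sum_singleton]
        rw [chi_ri]
      · simp only [Finset.univ_unique, Finset.sum_singleton]
        rw [ri_val, Matrix.submatrix_mul_equiv]
        exact (Fintype.sum_equiv (Fintype.equivFin ι).symm _ _ fun _ => rfl).symm
    · obtain ⟨H, hH, hHc, hHn⟩ := exists_herm hS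
      set u := hH.eigenvectorUnitary with hu
      set lam := hH.eigenvalues with hlam
      have hdiag : (u : Matrix ι ι ℂ)ᴴ * H * (u : Matrix ι ι ℂ) =
          Matrix.diagonal (fun i => (lam i : ℂ)) := by
        have h1 := hH.conjStarAlgAut_star_eigenvectorUnitary
        rw [Unitary.conjStarAlgAut_star_apply] at h1
        exact h1
      have huu : (u : Matrix ι ι ℂ) * (u : Matrix ι ι ℂ)ᴴ = 1 := Matrix.mem_unitaryGroup_iff.1 u.2
      have hcb : ∀ g, (cb u π g : Matrix ι ι ℂ) =
          (u : Matrix ι ι ℂ)ᴴ * (π g : Matrix ι ι ℂ) * (u : Matrix ι ι ℂ) := by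
        intro g
        change ((u⁻¹ * π g * u : Matrix.unitaryGroup ι ℂ) : Matrix ι ι ℂ) = _
        rw [← Unitary.star_eq_inv]
        rfl
      have hconj : ∀ X Y : Matrix ι ι ℂ, ((u : Matrix ι ι ℂ)ᴴ * X * (u : Matrix ι ι ℂ)) *
          ((u : Matrix ι ι ℂ)ᴴ * Y * (u : Matrix ι ι ℂ)) =
          (u : Matrix ι ι ℂ)ᴴ * (X * Y) * (u : Matrix ι ι ℂ) := by
        intro X Y
        calc ((u : Matrix ι ι ℂ)ᴴ * X * (u : Matrix ι ι ℂ)) *
            ((u : Matrix ι ι ℂ)ᴴ * Y * (u : Matrix ι ι ℂ)) =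
            (u : Matrix ι ι ℂ)ᴴ * X * ((u : Matrix ι ι ℂ) * (u : Matrix ι ι ℂ)ᴴ) * Y *
              (u : Matrix ι ι ℂ) := by simp only [Matrix.mul_assoc]
          _ = _ := by
            rw [huu, Matrix.mul_one]
            simp only [Matrix.mul_assoc]
      -- two different eigenvalues
      have hne : ∃ i₀ j₀, lam i₀ ≠ lam j₀ := by
        by_contra hcon
        push Not at hcon
        by_cases hem : Nonempty ι
        · obtain ⟨i₀⟩ := hem
          refine hHn (lam i₀ : ℂ) ?_
          have h1 : Matrix.diagonal (fun i => (lam i : ℂ)) = (lam i₀ : ℂ) • (1 : Matrix ι ι ℂ) := by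
            ext i j
            rw [Matrix.diagonal_apply, Matrix.smul_apply, Matrix.one_apply, hcon i i₀]
            split_ifs <;> simp
          rw [h1] at hdiag
          calc H = ((u : Matrix ι ι ℂ) * (u : Matrix ι ι ℂ)ᴴ) * H *
                ((u : Matrix ι ι ℂ) * (u : Matrix ι ι ℂ)ᴴ) := by rw [huu]; simp
            _ = (u : Matrix ι ι ℂ) * ((u : Matrix ι ι ℂ)ᴴ * H * (u : Matrix ι ι ℂ)) *
                (u : Matrix ι ι ℂ)ᴴ := by simp only [Matrix.mul_assoc]
            _ = _ := by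
              rw [hdiag, Matrix.mul_smul, Matrix.mul_one, Matrix.smul_mul, huu]
        · rw [not_nonempty_iff] at hem
          exact hHn 0 (by
            ext i
            exact (hem.false i).elim)
      obtain ⟨i₀, j₀, hij⟩ := hne
      set p : ι → Prop := fun i => lam i = lam i₀ with hp
      have hcomm : ∀ g i j, lam i ≠ lam j → (cb u π g : Matrix ι ι ℂ) i j = 0 := by
        intro g i j hne
        have h1 : (cb u π g : Matrix ι ι ℂ) * Matrix.diagonal (fun i => (lam i : ℂ)) =
            Matrix.diagonal (fun i => (lam i : ℂ)) * (cb u π g : Matrix ι ι ℂ) := by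
          rw [hcb, ← hdiag, hconj, hconj, hHc]
        have h2 := congrFun (congrFun h1 i) j
        rw [Matrix.mul_diagonal, Matrix.diagonal_mul] at h2
        have h3 : ((lam i : ℂ) - (lam j : ℂ)) * (cb u π g : Matrix ι ι ℂ) i j = 0 := by
          linear_combination -h2
        rcases mul_eq_zero.1 h3 with h4 | h4
        · exfalso
          apply hne
          have : (lam i : ℂ) = (lam j : ℂ) := by linear_combination h4
          exact_mod_cast this
        · exact h4
      have hb : ∀ g i j, ¬ (p i ↔ p j) → (cb u π g : Matrix ι ι ℂ) i j = 0 := by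
        intro g i j hn
        refine hcomm g i j fun h => hn ?_
        rw [hp]
        simp only
        rw [h]
      have hb' : ∀ g i j, ¬ (¬ p i ↔ ¬ p j) → (cb u π g : Matrix ι ι ℂ) i j = 0 := by
        intro g i j hn
        exact hb g i j fun h => hn (not_congr h)
      have htr : ∀ (A : Matrix ι ι ℂ) (g : G), (A * (π g : Matrix ι ι ℂ)).trace =
          (((u : Matrix ι ι ℂ)ᴴ * A * (u : Matrix ι ι ℂ)) * (cb u π g : Matrix ι ι ℂ)).trace := by
        intro A g
        rw [hcb, hconj, Matrix.trace_mul_comm ((u : Matrix ι ι ℂ)ᴴ * (A * (π g : Matrix ι ι ℂ)))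
          (u : Matrix ι ι ℂ), ← Matrix.mul_assoc, huu, Matrix.one_mul]
      have hc' := cont_cb u hπ
      have hc1 : Fintype.card {i // p i} < N := by
        have h1 : Fintype.card {i // p i} < Fintype.card ι :=
          Fintype.card_subtype_lt (x := j₀) fun h => hij h.symm
        omega
      have hc2 : Fintype.card {i // ¬ p i} < N := by
        have h1 : Fintype.card {i // ¬ p i} < Fintype.card ι :=
          Fintype.card_subtype_lt (x := i₀) fun h => h rfl
        omega
      obtain ⟨J, _, m, ρ, d1, d2, d3⟩ := ih {i // p i} hc1 (bl p (cb u π) hb) (cont_bl p hb hc')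
      obtain ⟨J', _, m', ρ', d1', d2', d3'⟩ := ih {i // ¬ p i} hc2
        (bl (fun i => ¬ p i) (cb u π) hb') (cont_bl (fun i => ¬ p i) hb' hc')
      refine ⟨J ⊕ J', inferInstance, Sum.elim m m', fun j => match j with
        | Sum.inl j => ρ j
        | Sum.inr j => ρ' j, ?_, fun g => ?_, fun A => ?_⟩
      · rintro (j | j)
        · exact d1 j
        · exact d1' j
      · have h1 := htr 1 g
        have huu' : (u : Matrix ι ι ℂ)ᴴ * (u : Matrix ι ι ℂ) = 1 :=
          Matrix.mem_unitaryGroup_iff'.1 u.2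
        rw [Matrix.one_mul, Matrix.mul_one, huu', Matrix.one_mul] at h1
        rw [h1, Fintype.sum_sum_type]
        have h2 : (cb u π g : Matrix ι ι ℂ).trace =
            (bl p (cb u π) hb g : Matrix {i // p i} {i // p i} ℂ).trace +
            (bl (fun i => ¬ p i) (cb u π) hb' g : Matrix {i // ¬ p i} {i // ¬ p i} ℂ).trace := by
          unfold Matrix.trace
          simp only [Matrix.diag_apply]
          rw [← Fintype.sum_subtype_add_sum_subtype p]
          rfl
        rw [h2]
        exact congrArg₂ (· + ·) (d2 g) (d2' g)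
      · obtain ⟨B, hB⟩ := d3 (((u : Matrix ι ι ℂ)ᴴ * A * (u : Matrix ι ι ℂ)).submatrix
          Subtype.val Subtype.val)
        obtain ⟨B', hB'⟩ := d3' (((u : Matrix ι ι ℂ)ᴴ * A * (u : Matrix ι ι ℂ)).submatrix
          Subtype.val Subtype.val)
        refine ⟨fun j => match j with
          | Sum.inl j => B j
          | Sum.inr j => B' j, fun g => ?_⟩
        rw [htr, trace_bl p hb hb', Fintype.sum_sum_type]
        exact congrArg₂ (· + ·) (hB g) (hB' g)

/-- combinations of matrix coefficients of the members of a system -/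
def CoefP (P : ∀ n : ℕ, (G →* Matrix.unitaryGroup (Fin n) ℂ) → Prop) (f : G → ℂ) : Prop :=
  ∃ (J : Type) (_ : Fintype J) (m : J → ℕ) (ρ : ∀ j, G →* Matrix.unitaryGroup (Fin (m j)) ℂ)
    (B : ∀ j, Matrix (Fin (m j)) (Fin (m j)) ℂ), (∀ j, P (m j) (ρ j)) ∧
    ∀ g, f g = ∑ j, (B j * (ρ j g : Matrix (Fin (m j)) (Fin (m j)) ℂ)).trace

variable {P : ∀ n : ℕ, (G →* Matrix.unitaryGroup (Fin n) ℂ) → Prop}

theorem CoefP.add {f f' : G → ℂ} (h : CoefP P f) (h' : CoefP P f') :
    CoefP P fun g => f g + f' g := by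
  obtain ⟨J, _, m, ρ, B, h1, h2⟩ := h
  obtain ⟨J', _, m', ρ', B', h1', h2'⟩ := h'
  refine ⟨J ⊕ J', inferInstance, Sum.elim m m', fun j => match j with
    | Sum.inl j => ρ j
    | Sum.inr j => ρ' j, fun j => match j with
    | Sum.inl j => B j
    | Sum.inr j => B' j, ?_, fun g => ?_⟩
  · rintro (j | j)
    · exact h1 j
    · exact h1' j
  · rw [Fintype.sum_sum_type]
    exact congrArg₂ (· + ·) (h2 g) (h2' g)

theorem CoefP.zero : CoefP P fun _ => 0 :=
  ⟨Empty, inferInstance, fun e => e.elim, fun e => e.elim, fun e => e.elim, fun e => e.elim,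
    fun g => by simp⟩

theorem CoefP.sum {J : Type} (s : Finset J) {f : J → G → ℂ} (h : ∀ j ∈ s, CoefP P (f j)) :
    CoefP P fun g => ∑ j ∈ s, f j g := by
  classical
  induction s using Finset.induction_on with
  | empty =>
    simp only [Finset.sum_empty]
    exact CoefP.zero
  | insert j s hj ih =>
    simp only [Finset.sum_insert hj]
    exact (h j (Finset.mem_insert_self _ _)).add
      (ih fun i hi => h i (Finset.mem_insert_of_mem hi))

end

section

variable {G : Type} [Group G] [TopologicalSpace G] [IsTopologicalGroup G] [CompactSpace G]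
  [MeasurableSpace G] [BorelSpace G]

/-- a system of irreducible representations that is closed under tensor products and duals -/
structure Sy (μ : Measure G) (P : ∀ n : ℕ, (G →* Matrix.unitaryGroup (Fin n) ℂ) → Prop) :
    Prop where
  irr : ∀ {n : ℕ} {π : G →* Matrix.unitaryGroup (Fin n) ℂ}, P n π → Irr π
  one : P 1 1
  cj : ∀ {n : ℕ} {π : G →* Matrix.unitaryGroup (Fin n) ℂ}, P n π → P n (cj π)
  mul : ∀ {n m k : ℕ} {π : G →* Matrix.unitaryGroup (Fin n) ℂ}
    {ρ : G →* Matrix.unitaryGroup (Fin m) ℂ} {σ : G →* Matrix.unitaryGroup (Fin k) ℂ},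
    P n π → P m ρ → Irr σ → ∫ g, chi π g * chi ρ g * conj (chi σ g) ∂μ ≠ 0 → P k σ

variable {μ : Measure G} [IsProbabilityMeasure μ] [μ.IsHaarMeasure]
  {P : ∀ n : ℕ, (G →* Matrix.unitaryGroup (Fin n) ℂ) → Prop}

theorem Sy.coef_const (h : Sy μ P) (c : ℂ) : CoefP P fun _ => c :=
  ⟨Unit, inferInstance, fun _ => 1, fun _ => 1, fun _ => c • 1, fun _ => h.one, fun g => by simp⟩

theorem Sy.coef_conj (h : Sy μ P) {f : G → ℂ} (hf : CoefP P f) :
    CoefP P fun g => conj (f g) := by
  obtain ⟨J, _, m, ρ, B, h1, h2⟩ := hf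
  refine ⟨J, inferInstance, m, fun j => Pool.Agent.TH553.ST.cj (ρ j), fun j => (B j).map conj,
    fun j => h.cj (h1 j), fun g => ?_⟩
  simp only
  rw [h2, map_sum]
  refine Finset.sum_congr rfl fun j _ => ?_
  rw [cj_val, ← Matrix.map_mul]
  unfold Matrix.trace
  rw [map_sum]
  rfl

theorem Sy.coef_mul1 (h : Sy μ P) {n m : ℕ} {π : G →* Matrix.unitaryGroup (Fin n) ℂ}
    {ρ : G →* Matrix.unitaryGroup (Fin m) ℂ} (h1 : P n π) (h2 : P m ρ)
    (A : Matrix (Fin n) (Fin n) ℂ) (B : Matrix (Fin m) (Fin m) ℂ) :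
    CoefP P fun g => (A * (π g : Matrix (Fin n) (Fin n) ℂ)).trace *
      (B * (ρ g : Matrix (Fin m) (Fin m) ℂ)).trace := by
  obtain ⟨J, i, k, σ, h3, h4, h5⟩ := dc_aux _ _ (Nat.lt_succ_self _) (tp π ρ)
    (cont_tp (h.irr h1).c (h.irr h2).c)
  obtain ⟨C, hC⟩ := h5 (A ⊗ₖ B)
  refine ⟨J, i, k, σ, C, fun j => h.mul h1 h2 (h3 j) ?_, fun g => ?_⟩
  · exact int_const_ne h3 (f := fun g => chi π g * chi ρ g) (fun g => by rw [← h4, tp_trace]) j
  · rw [← hC]
    change _ = ((A ⊗ₖ B) * ((π g : Matrix (Fin n) (Fin n) ℂ) ⊗ₖ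
      (ρ g : Matrix (Fin m) (Fin m) ℂ))).trace
    rw [← Matrix.mul_kronecker_mul, Matrix.trace_kronecker]

theorem Sy.coef_mul (h : Sy μ P) {f f' : G → ℂ} (hf : CoefP P f) (hf' : CoefP P f') :
    CoefP P fun g => f g * f' g := by
  obtain ⟨J, _, m, ρ, B, h1, h2⟩ := hf
  obtain ⟨J', _, m', ρ', B', h1', h2'⟩ := hf'
  have e : (fun g => f g * f' g) = fun g => ∑ j, ∑ j',
      (B j * (ρ j g : Matrix (Fin (m j)) (Fin (m j)) ℂ)).trace *
      (B' j' * (ρ' j' g : Matrix (Fin (m' j')) (Fin (m' j')) ℂ)).trace := by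
    funext g
    rw [h2, h2', Finset.sum_mul_sum]
  rw [e]
  exact CoefP.sum _ fun j _ => CoefP.sum _ fun j' _ => h.coef_mul1 (h1 j) (h1' j') _ _

theorem Sy.coef_cont (h : Sy μ P) {f : G → ℂ} (hf : CoefP P f) : Continuous f := by
  obtain ⟨J, _, m, ρ, B, h1, h2⟩ := hf
  have : f = fun g => ∑ j, (B j * (ρ j g : Matrix (Fin (m j)) (Fin (m j)) ℂ)).trace := funext h2
  rw [this]
  exact continuous_finsetSum _ fun j _ =>
    (continuous_const.matrix_mul (cont_mat (h.irr (h1 j)).c)).matrix_trace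

/-- the common kernel -/
def kerP (P : ∀ n : ℕ, (G →* Matrix.unitaryGroup (Fin n) ℂ) → Prop) : Subgroup G where
  carrier := {g | ∀ (n : ℕ) (π : G →* Matrix.unitaryGroup (Fin n) ℂ), P n π → π g = 1}
  mul_mem' := fun {a b} ha hb n π h => by rw [map_mul, ha n π h, hb n π h, one_mul]
  one_mem' := fun n π _ => map_one π
  inv_mem' := fun {a} ha n π h => by rw [map_inv, ha n π h, inv_one]

theorem mem_kerP {g : G} : g ∈ kerP P ↔
    ∀ (n : ℕ) (π : G →* Matrix.unitaryGroup (Fin n) ℂ), P n π → π g = 1 := Iff.rfl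

instance : (kerP P).Normal := ⟨fun g hg h n π hP => by
  rw [map_mul, map_mul, hg n π hP, mul_one, ← map_mul, mul_inv_cancel, map_one]⟩

theorem Sy.closed (h : Sy μ P) : IsClosed (kerP P : Set G) := by
  have e : (kerP P : Set G) = ⋂ (n : ℕ) (π : G →* Matrix.unitaryGroup (Fin n) ℂ) (_ : P n π),
      {g | (π g : Matrix (Fin n) (Fin n) ℂ) = 1} := by
    ext g
    simp only [Set.mem_iInter]
    constructor
    · intro hg n π hP
      have h1 := hg n π hP
      exact congrArg Subtype.val h1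
    · intro hg n π hP
      exact Subtype.ext (hg n π hP)
  rw [e]
  exact isClosed_iInter fun n => isClosed_iInter fun π => isClosed_iInter fun hP =>
    isClosed_eq (cont_mat (h.irr hP).c) continuous_const

/-- the algebra of functions on the quotient -/
noncomputable def Sy.alg (h : Sy μ P) : StarSubalgebra ℂ C(G ⧸ kerP P, ℂ) where
  carrier := {f | CoefP P fun g => f (QuotientGroup.mk g)}
  mul_mem' := fun {f f'} hf hf' => h.coef_mul hf hf'
  one_mem' := h.coef_const 1
  add_mem' := fun {f f'} hf hf' => CoefP.add hf hf'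
  zero_mem' := h.coef_const 0
  algebraMap_mem' := fun c => h.coef_const c
  star_mem' := fun {f} hf => h.coef_conj hf

/-- functions on the quotient -/
def down {N : Subgroup G} (f : G → ℂ) (h : ∀ a b, a⁻¹ * b ∈ N → f a = f b) :
    G ⧸ N → ℂ := Quotient.lift f fun a b hab => h a b (QuotientGroup.leftRel_apply.1 hab)

theorem down_mk {N : Subgroup G} {f : G → ℂ} (h : ∀ a b, a⁻¹ * b ∈ N → f a = f b) (g : G) :
    down f h (QuotientGroup.mk g) = f g := rfl

theorem down_cont {N : Subgroup G} {f : G → ℂ} (h : ∀ a b, a⁻¹ * b ∈ N → f a = f b)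
    (hf : Continuous f) : Continuous (down f h) :=
  hf.quotient_lift _

theorem mat_eq {n : ℕ} (π : G →* Matrix.unitaryGroup (Fin n) ℂ) {a b : G}
    (h : π (a⁻¹ * b) = 1) : π a = π b := by
  rw [map_mul, map_inv] at h
  exact (inv_mul_eq_one.1 h)

theorem Sy.sep (h : Sy μ P) {a b : G ⧸ kerP P} (hab : a ≠ b) :
    ∃ f : C(G ⧸ kerP P, ℂ), f ∈ h.alg ∧ f a ≠ f b := by
  induction a using QuotientGroup.induction_on with
  | _ g =>
  induction b using QuotientGroup.induction_on with
  | _ k =>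
  have h1 : g⁻¹ * k ∉ kerP P := fun h2 => hab (QuotientGroup.eq.2 h2)
  rw [mem_kerP] at h1
  push Not at h1
  obtain ⟨n, π, hP, h2⟩ := h1
  have h3 : π g ≠ π k := by
    intro h4
    apply h2
    rw [map_mul, map_inv, h4, inv_mul_cancel]
  have h4 : ∃ i j, (π g : Matrix (Fin n) (Fin n) ℂ) i j ≠ (π k : Matrix (Fin n) (Fin n) ℂ) i j := by
    by_contra hcon
    push Not at hcon
    exact h3 (Subtype.ext (by ext i j; exact hcon i j))
  obtain ⟨i, j, hij⟩ := h4
  have h5 : ∀ M : Matrix (Fin n) (Fin n) ℂ, (Matrix.single j i 1 * M).trace = M i j := by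
    intro M
    rw [Matrix.trace_mul_comm, Matrix.trace_mul_single]
    simp
  set f : G → ℂ := fun g => (π g : Matrix (Fin n) (Fin n) ℂ) i j with hf
  have h6 : CoefP P f := ⟨Unit, inferInstance, fun _ => n, fun _ => π,
    fun _ => Matrix.single j i 1, fun _ => hP, fun g => by
      simp only [Finset.univ_unique, Finset.sum_singleton]
      rw [h5]⟩
  have h7 : ∀ a b, a⁻¹ * b ∈ kerP P → f a = f b := fun a b hab => by
    rw [hf]
    simp only
    rw [mat_eq π (hab n π hP)]
  exact ⟨⟨down f h7, down_cont h7 (h.coef_cont h6)⟩, h6, hij⟩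

/-- orthogonality of matrix coefficients and characters -/
theorem orth_coef {n m : ℕ} {ρ : G →* Matrix.unitaryGroup (Fin n) ℂ}
    {π : G →* Matrix.unitaryGroup (Fin m) ℂ} (hρ : Irr ρ) (hπ : Irr π) (hne : chi ρ ≠ chi π)
    (B : Matrix (Fin n) (Fin n) ℂ) :
    ∫ g, (B * (ρ g : Matrix (Fin n) (Fin n) ℂ)).trace * conj (chi π g) ∂μ = 0 := by
  have h0 : ∀ T : Matrix (Fin n) (Fin m) ℂ, mir μ (avr ρ π T) = 0 := by
    intro T
    by_contra hcon
    exact hne (funext fun g => chi_eq_of_intertwiner hρ.s hπ.s hcon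
      (fun g => comm_avr hρ.c hπ.c T g) g)
  have h1 : ∀ (i j : Fin n) (k : Fin m) (g : G), avr ρ π (Matrix.single i k 1) g j k =
      (ρ g : Matrix (Fin n) (Fin n) ℂ) j i * conj ((π g : Matrix (Fin m) (Fin m) ℂ) k k) := by
    intro i j k g
    unfold avr
    rw [Matrix.mul_apply, Finset.sum_eq_single k]
    · rw [Matrix.mul_single_apply_same, mul_one, Matrix.conjTranspose_apply]
      rfl
    · intro b _ hb
      rw [Matrix.mul_single_apply_of_ne _ _ _ _ _ hb, zero_mul]
    · intro h
      exact absurd (Finset.mem_univ _) h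
  have h2 : ∀ g, (B * (ρ g : Matrix (Fin n) (Fin n) ℂ)).trace * conj (chi π g) =
      ∑ i, ∑ j, ∑ k, B i j * avr ρ π (Matrix.single i k 1) g j k := by
    intro g
    unfold chi Matrix.trace
    rw [map_sum, Finset.sum_mul]
    refine Finset.sum_congr rfl fun i _ => ?_
    rw [Matrix.diag_apply, Matrix.mul_apply, Finset.sum_mul]
    refine Finset.sum_congr rfl fun j _ => ?_
    rw [Finset.mul_sum]
    refine Finset.sum_congr rfl fun k _ => ?_
    rw [h1, Matrix.diag_apply]
    ring
  simp only [h2]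
  have hint : ∀ (i j : Fin n) (k : Fin m),
      Integrable (fun g => B i j * avr ρ π (Matrix.single i k 1) g j k) μ := fun i j k =>
    (intg ((cont_avr hρ.c hπ.c _).matrix_elem j k)).const_mul _
  rw [integral_finsetSum _ fun i _ => integrable_finsetSum _ fun j _ =>
    integrable_finsetSum _ fun k _ => hint i j k]
  refine Finset.sum_eq_zero fun i _ => ?_
  rw [integral_finsetSum _ fun j _ => integrable_finsetSum _ fun k _ => hint i j k]
  refine Finset.sum_eq_zero fun j _ => ?_
  rw [integral_finsetSum _ fun k _ => hint i j k]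
  refine Finset.sum_eq_zero fun k _ => ?_
  rw [integral_const_mul]
  have h3 := congrFun (congrFun (h0 (Matrix.single i k 1)) j) k
  rw [mir_apply] at h3
  rw [h3]
  simp

/-- **A closed system contains all irreducible representations that are trivial on its kernel.** -/
theorem Sy.full (h : Sy μ P) {n : ℕ} {π : G →* Matrix.unitaryGroup (Fin n) ℂ} (hπ : Irr π)
    (ht : ∀ g ∈ kerP P, π g = 1) : ∃ (m : ℕ) (ρ : G →* Matrix.unitaryGroup (Fin m) ℂ),
      P m ρ ∧ chi ρ = chi π := by
  by_contra hcon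
  push Not at hcon
  have h1 : h.alg.topologicalClosure = ⊤ := by
    refine ContinuousMap.starSubalgebra_topologicalClosure_eq_top_of_separatesPoints _ ?_
    intro a b hab
    obtain ⟨f, h2, h3⟩ := h.sep hab
    exact ⟨f, ⟨f, h2, rfl⟩, h3⟩
  have h7 : ∀ a b, a⁻¹ * b ∈ kerP P → chi π a = chi π b := fun a b hab => by
    unfold chi
    rw [mat_eq π (ht _ hab)]
  set F : C(G ⧸ kerP P, ℂ) := ⟨down (chi π) h7, down_cont h7 (cont_chi hπ.c)⟩ with hF
  have h2 : F ∈ h.alg.topologicalClosure := by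
    rw [h1]
    exact StarSubalgebra.mem_top
  have h3 : F ∈ closure ((h.alg : StarSubalgebra ℂ C(G ⧸ kerP P, ℂ)) :
      Set C(G ⧸ kerP P, ℂ)) := h2
  have hn : (0 : ℝ) < n := by
    have := hπ.n
    positivity
  obtain ⟨φ, h4, h5⟩ := Metric.mem_closure_iff.1 h3 (1 / (2 * n)) (by positivity)
  have h6 : ∀ g : G, ‖chi π g - φ (QuotientGroup.mk g)‖ ≤ 1 / (2 * n) := by
    intro g
    rw [dist_eq_norm] at h5
    exact (ContinuousMap.norm_coe_le_norm (F - φ) (QuotientGroup.mk g)).trans h5.le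
  have h8 : CoefP P fun g => φ (QuotientGroup.mk g) := h4
  have hφc := h.coef_cont h8
  obtain ⟨J, _, m, ρ, B, h9, h10⟩ := h8
  have h11 : ∫ g, φ (QuotientGroup.mk g) * conj (chi π g) ∂μ = 0 := by
    simp only [h10, Finset.sum_mul]
    have hcc : ∀ j, Continuous fun g => (B j * (ρ j g : Matrix (Fin (m j)) (Fin (m j)) ℂ)).trace *
        conj (chi π g) := fun j =>
      ((continuous_const.matrix_mul (cont_mat (h.irr (h9 j)).c)).matrix_trace).mul
        (Complex.continuous_conj.comp (cont_chi hπ.c))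
    rw [integral_finsetSum _ fun j _ => intg (hcc j)]
    exact Finset.sum_eq_zero fun j _ => orth_coef (h.irr (h9 j)) hπ (hcon _ _ (h9 j)) _
  classical
  have h12 := int_two (μ := μ) hπ hπ
  rw [if_pos rfl] at h12
  have hc1 : Continuous fun g => chi π g * conj (chi π g) :=
    (cont_chi hπ.c).mul (Complex.continuous_conj.comp (cont_chi hπ.c))
  have hc2 : Continuous fun g => φ (QuotientGroup.mk g) * conj (chi π g) :=
    hφc.mul (Complex.continuous_conj.comp (cont_chi hπ.c))
  have h13 : ∫ g, (chi π g * conj (chi π g) - φ (QuotientGroup.mk g) * conj (chi π g)) ∂μ =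
      1 := by
    rw [integral_sub (intg hc1) (intg hc2), h12, h11, sub_zero]
  have h14 : ‖∫ g, (chi π g * conj (chi π g) - φ (QuotientGroup.mk g) * conj (chi π g)) ∂μ‖ ≤
      1 / 2 := by
    refine (norm_integral_le_integral_norm _).trans ?_
    have h15 : ∫ g, ‖chi π g * conj (chi π g) - φ (QuotientGroup.mk g) * conj (chi π g)‖ ∂μ ≤
        ∫ _, (1 / 2 : ℝ) ∂μ := by
      refine integral_mono (intg (hc1.sub hc2)).norm (integrable_const _) fun g => ?_
      simp only
      rw [← sub_mul, norm_mul, Complex.norm_conj]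
      calc ‖chi π g - φ (QuotientGroup.mk g)‖ * ‖chi π g‖ ≤ 1 / (2 * n) * n :=
            mul_le_mul (h6 g) (norm_chi π g) (norm_nonneg _) (by positivity)
        _ = 1 / 2 := by field_simp
    simpa using h15
  rw [h13] at h14
  norm_num at h14

end

end Pool.Agent.N210.GO
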